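import Pool.Agent.X219.PK.Gen

/-! The algorithm: from the answers to coanalytic questions it computes a name of the perfect
kernel together with the limit. -/

set_option autoImplicit false

namespace Pool.Agent.X219.PK

open Pool.Agent.X219.CB Pool.Agent.Helper446

/-- The data found in one step: the next condition, the limit value, the stage. -/
abbrev Wd := List ℕ × (ℕ × ℕ)

/-- The code of the question whether `t` is invalid. -/
def qz0 (t : List ℕ) : ℕ := Encodable.encode [Nat.pair 0 (Encodable.encode t)]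

/-- The code of the question whether the limit value is forced. -/
def qz1 (y : (List ℕ × ℕ) × (ℕ × ℕ)) : ℕ := Encodable.encode [Nat.pair 1 (Encodable.encode y)]

variable {α : Type} [Primcodable α]

@[fun_prop] theorem cqz0 {f : α → List ℕ} (hf : Computable f) : Computable fun a => qz0 (f a) := by
  unfold qz0
  fun_prop

@[fun_prop] theorem cqz1 {f : α → (List ℕ × ℕ) × (ℕ × ℕ)} (hf : Computable f) :
    Computable fun a => qz1 (f a) := by
  unfold qz1
  fun_prop

/-- The test for the data of one step. -/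
def good (b : Baire) (n : ℕ) (t : List ℕ) (w : Wd) : Prop :=
  t <+: w.1 ∧ n < w.1.length ∧ b (qz0 w.1) = 0 ∧ (n + 1 ∈ w.1 ∨ b (qz0 [n + 1]) = 1) ∧
    b (qz1 ((w.1, n), w.2)) = 1

variable {D : Set Baire}

theorem UR.odq {f g : α → ℕ} (hf : Computable f) (hg : Computable g) :
    UR D fun x a => od x (f a) = g a :=
  UR.query (f := fun a => 2 * f a + 1) (by fun_prop) hg

theorem UR.odne {f g : α → ℕ} (hf : Computable f) (hg : Computable g) :
    UR D fun x a => od x (f a) ≠ g a := by
  have h1 : UR D fun x a => ∃ k, k ≠ g a ∧ od x (f a) = k := by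
    refine UR.ex (S := fun x a k => k ≠ g a ∧ od x (f a) = k) (UR.and (UR.of_re (RE.ne
      (by fun_prop) (by fun_prop))) ?_)
    exact UR.odq (f := fun x : α × ℕ => f x.1) (g := fun x : α × ℕ => x.2)
      (by fun_prop) (by fun_prop)
  refine h1.congr fun x _ a => ?_
  constructor
  · rintro ⟨k, h2, h3⟩ h4
    exact h2 (h3.symm.trans h4)
  · intro h2
    exact ⟨_, h2, rfl⟩

theorem UR.good : UR D fun x (y : (ℕ × List ℕ) × Wd) => good (od x) y.1.1 y.1.2 y.2 := by
  unfold PK.good
  refine UR.and (UR.of_re (re_prefix (by fun_prop) (by fun_prop)))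
    (UR.and (UR.of_re (RE.lt (by fun_prop) (by fun_prop)))
    (UR.and (UR.odq (by fun_prop) (by fun_prop))
    (UR.and (UR.or (UR.of_re (RE.mem_list (by fun_prop) (by fun_prop)))
      (UR.odq (by fun_prop) (by fun_prop))) (UR.odq (by fun_prop) (by fun_prop)))))

theorem UR.not_good : UR D fun x (y : (ℕ × List ℕ) × Wd) => ¬ PK.good (od x) y.1.1 y.1.2 y.2 := by
  have h1 : UR D fun x (y : (ℕ × List ℕ) × Wd) => ¬ y.1.2 <+: y.2.1 ∨ y.2.1.length ≤ y.1.1 ∨
      od x (qz0 y.2.1) ≠ 0 ∨ (y.1.1 + 1 ∉ y.2.1 ∧ od x (qz0 [y.1.1 + 1]) ≠ 1) ∨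
      od x (qz1 ((y.2.1, y.1.1), y.2.2)) ≠ 1 := by
    refine UR.or (UR.of_re (re_not_prefix (by fun_prop) (by fun_prop)))
      (UR.or (UR.of_re (RE.le (by fun_prop) (by fun_prop)))
      (UR.or (UR.odne (by fun_prop) (by fun_prop))
      (UR.or (UR.and (UR.of_re (RE.not_mem_list (by fun_prop) (by fun_prop)))
        (UR.odne (by fun_prop) (by fun_prop))) (UR.odne (by fun_prop) (by fun_prop)))))
  refine h1.congr fun x _ y => ?_
  unfold PK.good
  rw [← not_lt]
  tauto

/-- `w` is the first data passing the test. -/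
def Least (b : Baire) (n : ℕ) (t : List ℕ) (w : Wd) : Prop :=
  good b n t w ∧ ∀ c < Encodable.encode w, ¬ good b n t (Denumerable.ofNat Wd c)

theorem UR.least : UR D fun x (y : (ℕ × List ℕ) × Wd) => Least (od x) y.1.1 y.1.2 y.2 := by
  unfold PK.Least
  refine UR.and UR.good ?_
  refine UR.all_lt (S := fun x (y : (ℕ × List ℕ) × Wd) c =>
    ¬ PK.good (od x) y.1.1 y.1.2 (Denumerable.ofNat Wd c)) ?_
    (f := fun y : (ℕ × List ℕ) × Wd => Encodable.encode y.2) (by fun_prop)
  have hc : Computable fun y : ((ℕ × List ℕ) × Wd) × ℕ => (y.1.1, Denumerable.ofNat Wd y.2) :=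
    (Computable.fst.comp Computable.fst).pair ((Computable.ofNat Wd).comp Computable.snd)
  exact UR.not_good.comp hc

open Classical in
/-- The data of a step. -/
noncomputable def nextw (b : Baire) (n : ℕ) (t : List ℕ) : Wd :=
  if h : ∃ c, good b n t (Denumerable.ofNat Wd c) then Denumerable.ofNat Wd (Nat.find h)
  else ([], (0, 0))

theorem least_nextw {b : Baire} {n : ℕ} {t : List ℕ} (h : ∃ w, good b n t w) :
    Least b n t (nextw b n t) := by
  classical
  have h1 : ∃ c, good b n t (Denumerable.ofNat Wd c) := by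
    obtain ⟨w, hw⟩ := h
    exact ⟨Encodable.encode w, by rw [Denumerable.ofNat_encode]; exact hw⟩
  have h2 : nextw b n t = Denumerable.ofNat Wd (Nat.find h1) := by
    unfold nextw
    rw [dif_pos h1]
  rw [h2]
  refine ⟨Nat.find_spec h1, fun c hc => ?_⟩
  rw [Denumerable.encode_ofNat] at hc
  exact Nat.find_min h1 hc

theorem eq_nextw {b : Baire} {n : ℕ} {t : List ℕ} {w : Wd} (h : Least b n t w) :
    w = nextw b n t := by
  have h1 := least_nextw ⟨w, h.1⟩
  have h2 : ¬ Encodable.encode w < Encodable.encode (nextw b n t) := by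
    intro hlt
    have := h1.2 _ hlt
    rw [Denumerable.ofNat_encode] at this
    exact this h.1
  have h3 : ¬ Encodable.encode (nextw b n t) < Encodable.encode w := by
    intro hlt
    have := h.2 _ hlt
    rw [Denumerable.ofNat_encode] at this
    exact this h1.1
  exact Encodable.encode_injective (by omega)

/-- The conditions of the run. -/
noncomputable def run (b : Baire) : ℕ → List ℕ
  | 0 => []
  | n + 1 => (nextw b n (run b n)).1

/-- The relation between stage and condition, through histories. -/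
def Run (b : Baire) (n : ℕ) (t : List ℕ) : Prop :=
  ∃ h : List (List ℕ), (h[0]? = some [] ∧ h[n]? = some t) ∧
    ∀ i < n, ∃ y : List ℕ × Wd, (h[i]? = some y.1 ∧ h[i + 1]? = some y.2.1) ∧ Least b i y.1 y.2

theorem UR.run : UR D fun x (y : ℕ × List ℕ) => Run (od x) y.1 y.2 := by
  unfold PK.Run
  refine UR.ex (S := fun x (y : ℕ × List ℕ) (h : List (List ℕ)) =>
    (h[0]? = some [] ∧ h[y.1]? = some y.2) ∧ ∀ i < y.1, ∃ z : List ℕ × Wd,
      (h[i]? = some z.1 ∧ h[i + 1]? = some z.2.1) ∧ Least (od x) i z.1 z.2) ?_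
  refine UR.and (UR.of_re (RE.and (RE.eq (by fun_prop) (by fun_prop))
    (RE.eq (by fun_prop) (by fun_prop)))) ?_
  refine UR.all_lt (S := fun x (y : (ℕ × List ℕ) × List (List ℕ)) i => ∃ z : List ℕ × Wd,
      (y.2[i]? = some z.1 ∧ y.2[i + 1]? = some z.2.1) ∧ Least (od x) i z.1 z.2) ?_
      (f := fun y : (ℕ × List ℕ) × List (List ℕ) => y.1.1) (by fun_prop)
  refine UR.ex (S := fun x (y : ((ℕ × List ℕ) × List (List ℕ)) × ℕ) (z : List ℕ × Wd) =>
      (y.1.2[y.2]? = some z.1 ∧ y.1.2[y.2 + 1]? = some z.2.1) ∧ Least (od x) y.2 z.1 z.2) ?_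
  refine UR.and (UR.of_re (RE.and (RE.eq (by fun_prop) (by fun_prop))
    (RE.eq (by fun_prop) (by fun_prop)))) ?_
  exact UR.least.comp (f := fun y : (((ℕ × List ℕ) × List (List ℕ)) × ℕ) × (List ℕ × Wd) =>
    ((y.1.2, y.2.1), y.2.2)) (by fun_prop)

theorem run_iff {b : Baire} (hb : ∀ n, ∃ w, good b n (run b n) w) (n : ℕ) (t : List ℕ) :
    Run b n t ↔ run b n = t := by
  constructor
  · rintro ⟨h, ⟨h0, hn⟩, hs⟩
    have h1 : ∀ i, i ≤ n → h[i]? = some (run b i) := by
      intro i
      induction i with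
      | zero => exact fun _ => h0
      | succ i ih =>
        intro hi
        obtain ⟨⟨u, w⟩, ⟨h2, h3⟩, h4⟩ := hs i hi
        dsimp only at h2 h3 h4
        rw [ih (by omega)] at h2
        have h5 : run b i = u := Option.some_injective _ h2
        subst h5
        rw [h3, eq_nextw h4]
        rfl
    have h2 := h1 n le_rfl
    rw [hn] at h2
    exact (Option.some_injective _ h2).symm
  · rintro rfl
    refine ⟨(List.range (n + 1)).map (run b), ⟨by simp [run], by simp⟩, fun i hi => ?_⟩
    refine ⟨(run b i, nextw b i (run b i)), ⟨?_, ?_⟩, least_nextw (hb i)⟩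
    · have : i < n + 1 := by omega
      simp [this]
    · have : i + 1 < n + 1 := by omega
      simp [this, run]

/-- The name of the perfect kernel which the run produces. -/
noncomputable def qOf (b : Baire) : Baire := lim (run b)

/-- The limit values which the run produces. -/
noncomputable def yOf (b : Baire) : Baire := fun n => (nextw b n (run b n)).2.1

theorem run_length {b : Baire} (hb : ∀ n, ∃ w, good b n (run b n) w) (n : ℕ) :
    n < (run b (n + 1)).length := (least_nextw (hb n)).1.2.1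

theorem run_prefix {b : Baire} (hb : ∀ n, ∃ w, good b n (run b n) w) (n : ℕ) :
    run b n <+: run b (n + 1) := (least_nextw (hb n)).1.1

theorem computable_q {D : Set Baire} (hD : ∀ x ∈ D, ∀ n, ∃ w, good (od x) n (run (od x) n) w) :
    ComputableOn D fun x => qOf (od x) := by
  rw [computableOn_iff]
  have h1 : UR D fun x (y : ℕ × ℕ) => ∃ t : List ℕ, Run (od x) (y.1 + 1) t ∧
      t[y.1]? = some y.2 := by
    refine UR.ex (S := fun x (y : ℕ × ℕ) (t : List ℕ) => Run (od x) (y.1 + 1) t ∧
      t[y.1]? = some y.2) (UR.and ?_ (UR.of_re (RE.eq (by fun_prop) (by fun_prop))))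
    exact UR.run.comp (f := fun y : (ℕ × ℕ) × List ℕ => (y.1.1 + 1, y.2)) (by fun_prop)
  refine h1.congr fun x hx y => ?_
  have hlen := run_length (hD x hx) y.1
  have hval : qOf (od x) y.1 = (run (od x) (y.1 + 1))[y.1] := by
    show (run (od x) (y.1 + 1)).getD y.1 0 = _
    rw [List.getD_eq_getElem _ _ hlen]
  constructor
  · rintro ⟨t, h2, h3⟩
    rw [run_iff (hD x hx)] at h2
    subst h2
    rw [List.getElem?_eq_getElem hlen] at h3
    rw [hval]
    exact Option.some_injective _ h3
  · intro h2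
    refine ⟨_, (run_iff (hD x hx) _ _).2 rfl, ?_⟩
    rw [List.getElem?_eq_getElem hlen, ← hval, h2]

theorem computable_y {D : Set Baire} (hD : ∀ x ∈ D, ∀ n, ∃ w, good (od x) n (run (od x) n) w) :
    ComputableOn D fun x => yOf (od x) := by
  rw [computableOn_iff]
  have h1 : UR D fun x (y : ℕ × ℕ) => ∃ z : List ℕ × Wd, Run (od x) y.1 z.1 ∧
      Least (od x) y.1 z.1 z.2 ∧ z.2.2.1 = y.2 := by
    refine UR.ex (S := fun x (y : ℕ × ℕ) (z : List ℕ × Wd) => Run (od x) y.1 z.1 ∧
      Least (od x) y.1 z.1 z.2 ∧ z.2.2.1 = y.2) (UR.and ?_ (UR.and ?_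
        (UR.of_re (RE.eq (by fun_prop) (by fun_prop)))))
    · exact UR.run.comp (f := fun y : (ℕ × ℕ) × (List ℕ × Wd) => (y.1.1, y.2.1)) (by fun_prop)
    · exact UR.least.comp (f := fun y : (ℕ × ℕ) × (List ℕ × Wd) => ((y.1.1, y.2.1), y.2.2))
        (by fun_prop)
  refine h1.congr fun x hx y => ?_
  constructor
  · rintro ⟨⟨t, w⟩, h2, h3, h4⟩
    dsimp only at h2 h3 h4
    rw [run_iff (hD x hx)] at h2
    subst h2
    rw [eq_nextw h3] at h4
    exact h4
  · intro h2
    exact ⟨(run (od x) y.1, nextw (od x) y.1 (run (od x) y.1)), (run_iff (hD x hx) _ _).2 rfl,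
      least_nextw (hD x hx _), h2⟩

end Pool.Agent.X219.PK
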