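import Pool.Agent.X219.CB.Defs

/-! Perfect kernel problems and the limit operator: the definitions. -/

set_option autoImplicit false

namespace Pool.Agent.X219.PK

open Pool.Agent.X219.CB

/-- The map `F` is computable on `D`: the relation `F p n = k` is recursively enumerable in `p`,
uniformly for all `p` in `D`. -/
def ComputableOn (D : Set Baire) (F : Baire → Baire) : Prop :=
  ∃ R : List ℕ → ℕ × ℕ → Prop, REPred (fun x : List ℕ × (ℕ × ℕ) => R x.1 x.2) ∧
    ∀ p ∈ D, ∀ n k, F p n = k ↔ ∃ m, R (seg p m) (n, k)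

/-- Weihrauch reducibility for problems given on names. -/
def WLE (f g : Problem) : Prop :=
  ∃ Φ Ψ : Baire → Baire, ComputableOn f.inst Φ ∧
    ComputableOn {x | ∃ p ∈ f.inst, ∃ q ∈ g.sol (Φ p), x = pair p q} Ψ ∧
    ∀ p ∈ f.inst, Φ p ∈ g.inst ∧ ∀ q ∈ g.sol (Φ p), Ψ (pair p q) ∈ f.sol p

/-- Prefix closed sets of strings. -/
def IsTree (T : Set (List ℕ)) : Prop := ∀ σ τ, σ <+: τ → τ ∈ T → σ ∈ T

/-- The set of strings with characteristic function `p`. -/
def treeOf (p : Baire) : Set (List ℕ) := {σ | p (Encodable.encode σ) = 1}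

/-- `p` is the characteristic function of a tree. -/
def TreeName (p : Baire) : Prop := (∀ n, p n ≤ 1) ∧ IsTree (treeOf p)

/-- The infinite paths of a tree. -/
def paths (T : Set (List ℕ)) : Set Baire := {x | ∀ n, seg x n ∈ T}

/-- Every node has two incomparable extensions. -/
def Branching (S : Set (List ℕ)) : Prop :=
  ∀ σ ∈ S, ∃ τ₁ ∈ S, ∃ τ₂ ∈ S, σ <+: τ₁ ∧ σ <+: τ₂ ∧ ¬ τ₁ <+: τ₂ ∧ ¬ τ₂ <+: τ₁

/-- The union of all perfect subtrees. -/
def kernelTree (T : Set (List ℕ)) : Set (List ℕ) :=
  {σ | ∃ S, S ⊆ T ∧ IsTree S ∧ Branching S ∧ σ ∈ S}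

/-- The problem `PK`: from a tree to its largest perfect subtree. -/
def PKT : Problem where
  inst := {p | TreeName p}
  sol p := {q | TreeName q ∧ treeOf q = kernelTree (treeOf p)}

/-- The problem `PK` for closed subsets of Baire space: closed sets are named by trees, and every
tree whose paths are the perfect kernel is a solution. -/
def PKN : Problem where
  inst := {p | TreeName p}
  sol p := {q | TreeName q ∧ paths (treeOf q) = paths (kernelTree (treeOf p))}

/-- The limit operator on sequences in Baire space. -/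
def limP : Problem where
  inst := {r | ∀ i, ∃ v N, ∀ n ≥ N, r (Nat.pair n i) = v}
  sol r := {y | ∀ i, ∃ N, ∀ n ≥ N, r (Nat.pair n i) = y i}

/-- The composition of two problems. -/
def compose (f g : Problem) : Problem where
  inst := {p | p ∈ g.inst ∧ g.sol p ⊆ f.inst}
  sol p := {z | ∃ q ∈ g.sol p, z ∈ f.sol q}

end Pool.Agent.X219.PK
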