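import Pool.Agent.X219.PK.Alg

/-! The composition of the limit operator with the perfect kernel problem for closed sets reduces
to the problem of the largest perfect subtree. -/

set_option autoImplicit false

namespace Pool.Agent.X219.PK

open Pool.Agent.X219.CB Pool.Agent.Helper446

/-- The questions asked. -/
def Qn (R : List ℕ → ℕ × ℕ → Prop) (a : Baire) (y : ℕ × List ℕ) : Prop :=
  y.1 = Nat.pair 0 (Encodable.encode y.2) ∨
  ∃ z : ((List ℕ × ℕ) × (ℕ × ℕ)) × (ℕ × ℕ), y.1 = Nat.pair 1 (Encodable.encode z.1) ∧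
    (z.1.1.1 <+: y.2 ∧ z.1.2.2 ≤ z.2.1 ∧ z.2.2 ≠ z.1.2.1) ∧
    Det R a y.2 (Nat.pair z.2.1 z.1.1.2, z.2.2)

theorem UR.qn {D : Set Baire} {R : List ℕ → ℕ × ℕ → Prop}
    (hR : REPred fun x : List ℕ × (ℕ × ℕ) => R x.1 x.2) : UR D (Qn R) := by
  have h1 : UR D fun a (y : ℕ × List ℕ) => y.1 = Nat.pair 0 (Encodable.encode y.2) ∨
      ∃ z : ((List ℕ × ℕ) × (ℕ × ℕ)) × (ℕ × ℕ), y.1 = Nat.pair 1 (Encodable.encode z.1) ∧
      (z.1.1.1 <+: y.2 ∧ z.1.2.2 ≤ z.2.1 ∧ z.2.2 ≠ z.1.2.1) ∧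
      Det R a y.2 (Nat.pair z.2.1 z.1.1.2, z.2.2) := by
    refine UR.or (UR.of_re (RE.eq (by fun_prop) (by fun_prop))) ?_
    refine UR.ex (S := fun a (y : ℕ × List ℕ) (z : ((List ℕ × ℕ) × (ℕ × ℕ)) × (ℕ × ℕ)) =>
      y.1 = Nat.pair 1 (Encodable.encode z.1) ∧
      (z.1.1.1 <+: y.2 ∧ z.1.2.2 ≤ z.2.1 ∧ z.2.2 ≠ z.1.2.1) ∧
      Det R a y.2 (Nat.pair z.2.1 z.1.1.2, z.2.2)) ?_
    refine UR.and (UR.of_re (RE.eq (by fun_prop) (by fun_prop))) (UR.and (UR.of_re (RE.and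
      (re_prefix (by fun_prop) (by fun_prop)) (RE.and (RE.le (by fun_prop) (by fun_prop))
      (RE.ne (by fun_prop) (by fun_prop))))) ?_)
    exact (UR.det hR).comp (f := fun y : (ℕ × List ℕ) ×
      (((List ℕ × ℕ) × (ℕ × ℕ)) × (ℕ × ℕ)) =>
      (y.1.2, (Nat.pair y.2.2.1 y.2.1.1.2, y.2.2.2))) (by fun_prop)
  exact h1

/-- What the answers mean. -/
structure Answers (T : Set (List ℕ)) (R : List ℕ → ℕ × ℕ → Prop) (a b : Baire) : Prop where
  le : ∀ n, b n ≤ 1
  inv : ∀ t, b (qz0 t) = 1 ↔ Invalid T t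
  fix : ∀ y : (List ℕ × ℕ) × (ℕ × ℕ), b (qz1 y) = 1 ↔ ∀ t, y.1.1 <+: t → ∀ s u, y.2.2 ≤ s →
    u ≠ y.2.1 → Det R a t (Nat.pair s y.1.2, u) → Invalid T t

theorem answers_of {T U : Set (List ℕ)} {R : List ℕ → ℕ × ℕ → Prop} {a b : Baire}
    (hU : ∀ z, [z] ∈ U ↔ ∀ t, Qn R a (z, t) → Invalid T t)
    (hb : TreeName b) (hbU : treeOf b = U) : Answers T R a b := by
  have hq : ∀ z, b (Encodable.encode [z]) = 1 ↔ ∀ t, Qn R a (z, t) → Invalid T t := by
    intro z
    rw [← hU, ← hbU]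
    rfl
  refine ⟨hb.1, fun t => ?_, fun y => ?_⟩
  · rw [qz0, hq]
    constructor
    · intro h
      exact h t (Or.inl rfl)
    · rintro h t' (h1 | ⟨z, h1, -⟩)
      · have h2 := (Nat.pair_eq_pair.1 h1).2
        have h3 : t = t' := Encodable.encode_injective h2
        rw [← h3]
        exact h
      · have h2 := (Nat.pair_eq_pair.1 h1).1
        omega
  · rw [qz1, hq]
    constructor
    · intro h t h1 s u h2 h3 h4
      exact h t (Or.inr ⟨(y, (s, u)), rfl, ⟨h1, h2, h3⟩, h4⟩)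
    · rintro h t' (h1 | ⟨⟨z, ⟨s, u⟩⟩, h1, ⟨h2, h3, h4⟩, h5⟩)
      · have h2 := (Nat.pair_eq_pair.1 h1).1
        omega
      · have h6 := (Nat.pair_eq_pair.1 h1).2
        have h7 : y = z := Encodable.encode_injective h6
        subst h7
        exact h t' h2 s u h3 h4 h5

section Run

variable {T : Set (List ℕ)} {R : List ℕ → ℕ × ℕ → Prop} {a b : Baire} {Z : Baire → Baire}

theorem exists_good (hA : Answers T R a b)
    (hZ : ∀ q, closedOf q = paths (kernelTree T) → ∀ x : ℕ × ℕ,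
      (Z (CB.pair a q) x.1 = x.2 ↔ ∃ m, R (seg (CB.pair a q) m) x))
    (hlim : ∀ q, closedOf q = paths (kernelTree T) → Z (CB.pair a q) ∈ limP.inst)
    (n : ℕ) {t : List ℕ} (ht : ¬ Invalid T t) : ∃ w, good b n t w := by
  classical
  by_contra hcon
  push Not at hcon
  let tail : ℕ → List ℕ := fun k => if Invalid T [k + 1] then [0] else [k + 1]
  have htail : ∀ k, ¬ Invalid T (tail k) := by
    intro k
    show ¬ Invalid T (if Invalid T [k + 1] then [0] else [k + 1])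
    by_cases h : Invalid T [k + 1]
    · rw [if_pos h]
      exact invalid_zero 1
    · rw [if_neg h]
      exact h
  have htail2 : ∀ k, ¬ Invalid T [k + 1] → k + 1 ∈ tail k := by
    intro k h
    show k + 1 ∈ (if Invalid T [k + 1] then [0] else [k + 1])
    rw [if_neg h]
    simp
  have htlen : ∀ k, 0 < (tail k).length := by
    intro k
    show 0 < (if Invalid T [k + 1] then [0] else [k + 1]).length
    split_ifs <;> simp
  let t1 : List ℕ := (t ++ List.replicate (n + 1) 0) ++ tail n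
  have ht1 : ¬ Invalid T t1 := invalid_append (invalid_append ht (invalid_zero _)) (htail n)
  have htt1 : t <+: t1 := (List.prefix_append _ _).trans (List.prefix_append _ _)
  have ht1n : n < t1.length := by
    have h1 : t1.length = t.length + (n + 1) + (tail n).length := by
      simp only [t1, List.length_append, List.length_replicate]
    omega
  have hmem : n + 1 ∈ t1 ∨ b (qz0 [n + 1]) = 1 := by
    by_cases h : Invalid T [n + 1]
    · exact Or.inr ((hA.inv _).2 h)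
    · exact Or.inl (List.mem_append_right _ (htail2 n h))
  have hext : ∀ (k : ℕ) (t' : List ℕ), t1 <+: t' ∧ ¬ Invalid T t' → ∃ t'' : List ℕ,
      (t1 <+: t'' ∧ ¬ Invalid T t'') ∧ t' <+: t'' ∧ ∃ s u, (Nat.unpair k).2 ≤ s ∧
        u ≠ (Nat.unpair k).1 ∧ Det R a t'' (Nat.pair s n, u) := by
    rintro k t' ⟨h1, h2⟩
    have h3 : ¬ good b n t (t', ((Nat.unpair k).1, (Nat.unpair k).2)) := hcon _
    have h4 : b (qz1 ((t', n), ((Nat.unpair k).1, (Nat.unpair k).2))) ≠ 1 := by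
      intro h4
      refine h3 ⟨htt1.trans h1, lt_of_lt_of_le ht1n h1.length_le, ?_, ?_, h4⟩
      · have h5 : b (qz0 t') ≠ 1 := fun h => h2 ((hA.inv _).1 h)
        have h6 := hA.le (qz0 t')
        show b (qz0 t') = 0
        omega
      · exact hmem.imp (fun h => h1.subset h) id
    rw [ne_eq, hA.fix] at h4
    push Not at h4
    obtain ⟨t'', h5, s, u, h6, h7, h8, h9⟩ := h4
    exact ⟨t'', ⟨h1.trans h5, h9⟩, h5, s, u, h6, h7, h8⟩
  choose! ex hex1 hex2 hex3 using hext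
  let τ : ℕ → List ℕ := fun k => Nat.rec t1 (fun k s => ex k s ++ tail k) k
  have hτ : ∀ k, t1 <+: τ k ∧ ¬ Invalid T (τ k) := by
    intro k
    induction k with
    | zero => exact ⟨List.prefix_rfl, ht1⟩
    | succ k ih =>
      obtain ⟨h1, h2⟩ := hex1 k (τ k) ih
      exact ⟨h1.trans (List.prefix_append _ _), invalid_append h2 (htail k)⟩
  have hstep : ∀ k, τ k <+: τ (k + 1) := fun k =>
    (hex2 k _ (hτ k)).trans (List.prefix_append _ _)
  have hlen : ∀ k, k ≤ (τ k).length := by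
    intro k
    induction k with
    | zero => exact Nat.zero_le _
    | succ k ih =>
      have h1 := (hex2 k _ (hτ k)).length_le
      have h2 := htlen k
      have h3 : (τ (k + 1)).length = (ex k (τ k)).length + (tail k).length := by simp [τ]
      omega
  have hgood := good_of_chain hstep hlen (fun k => (hτ k).2)
    (fun k hk => List.mem_append_right _ (htail2 k hk))
  obtain ⟨v, N, hN⟩ := hlim _ hgood n
  obtain ⟨s, u, h1, h2, h3⟩ := hex3 (Nat.pair v N) _ (hτ _)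
  rw [Nat.unpair_pair] at h1 h2
  have h4 : Det R a (τ (Nat.pair v N + 1)) (Nat.pair s n, u) := h3.mono (List.prefix_append _ _)
  have h5 := (hZ _ hgood (Nat.pair s n, u)).2 (h4.sound (mem_cyl_lim hstep hlen (Nat.pair v N + 1)))
  have h6 := hN s h1
  dsimp only at h5
  rw [h5] at h6
  exact h2 h6

theorem run_valid (hA : Answers T R a b)
    (hZ : ∀ q, closedOf q = paths (kernelTree T) → ∀ x : ℕ × ℕ,
      (Z (CB.pair a q) x.1 = x.2 ↔ ∃ m, R (seg (CB.pair a q) m) x))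
    (hlim : ∀ q, closedOf q = paths (kernelTree T) → Z (CB.pair a q) ∈ limP.inst) (n : ℕ) :
    ¬ Invalid T (run b n) := by
  induction n with
  | zero =>
    rintro ⟨ρ, h, -⟩
    simp [run] at h
  | succ n ih =>
    have h1 := (least_nextw (exists_good hA hZ hlim n ih)).1.2.2.1
    intro h2
    have h3 := (hA.inv _).2 h2
    have h4 : b (qz0 (nextw b n (run b n)).1) = 1 := h3
    omega

theorem run_good (hA : Answers T R a b)
    (hZ : ∀ q, closedOf q = paths (kernelTree T) → ∀ x : ℕ × ℕ,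
      (Z (CB.pair a q) x.1 = x.2 ↔ ∃ m, R (seg (CB.pair a q) m) x))
    (hlim : ∀ q, closedOf q = paths (kernelTree T) → Z (CB.pair a q) ∈ limP.inst) :
    closedOf (qOf b) = paths (kernelTree T) ∧ yOf b ∈ limP.sol (Z (CB.pair a (qOf b))) := by
  have hb : ∀ n, ∃ w, good b n (run b n) w := fun n =>
    exists_good hA hZ hlim n (run_valid hA hZ hlim n)
  have hlen : ∀ i, i ≤ (run b i).length := by
    intro i
    cases i with
    | zero => exact Nat.zero_le _
    | succ i => exact run_length hb i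
  have hq : closedOf (qOf b) = paths (kernelTree T) := by
    refine good_of_chain (run_prefix hb) hlen (run_valid hA hZ hlim) fun k hk => ?_
    rcases (least_nextw (hb k)).1.2.2.2.1 with h | h
    · exact h
    · exact absurd ((hA.inv _).1 h) hk
  refine ⟨hq, fun n => ⟨(nextw b n (run b n)).2.2, fun s hs => ?_⟩⟩
  by_contra hne
  have h1 : Z (CB.pair a (qOf b)) (Nat.pair s n) = Z (CB.pair a (qOf b)) (Nat.pair s n) := rfl
  obtain ⟨m, hm⟩ := (hZ _ hq (Nat.pair s n, Z (CB.pair a (qOf b)) (Nat.pair s n))).1 h1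
  have h2 := Det.complete hm
  have h3 := (least_nextw (hb n)).1.2.2.2.2
  have h4 : (nextw b n (run b n)).1 <+: seg (qOf b) (max m (nextw b n (run b n)).1.length) := by
    refine prefix_of_mem ?_ (le_max_right _ _)
    exact mem_cyl_lim (run_prefix hb) hlen (n + 1)
  refine valid_seg hq (max m (nextw b n (run b n)).1.length)
    ((hA.fix _).1 h3 _ h4 s _ hs hne (h2.mono (seg_prefix (le_max_left _ _))))

end Run

theorem reduce {f g : Problem} (hf : WLE f limP) (hg : WLE g PKN) : WLE (compose f g) PKT := by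
  obtain ⟨Φ2, Ψ2, hΦ2, hΨ2, hf⟩ := hf
  obtain ⟨Φ1, Ψ1, hΦ1, hΨ1, hg⟩ := hg
  obtain ⟨tr, htr1, htr2, htr3⟩ := exists_tr
  let G : Set Baire := {x | ∃ a ∈ (compose f g).inst, ∃ q,
    closedOf q = paths (kernelTree (treeOf (Φ1 a))) ∧ x = CB.pair a q}
  let Y : Baire → Baire := fun x => Ψ1 (CB.pair (ev x) (tr (od x)))
  have htrs : ∀ a q, closedOf q = paths (kernelTree (treeOf (Φ1 a))) → tr q ∈ PKN.sol (Φ1 a) :=
    fun a q hq => ⟨htr2 q, by rw [htr3, hq]⟩
  have hY : ComputableOn G Y := by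
    refine ComputableOn.comp (F := fun x => CB.pair (ev x) (tr (od x)))
      (ComputableOn.pair ComputableOn.ev (ComputableOn.comp ComputableOn.od htr1
        (fun _ _ => trivial))) hΨ1 ?_
    rintro x ⟨a, ha, q, hq, rfl⟩
    rw [ev_pair, od_pair]
    exact ⟨a, ha.1, tr q, htrs a q hq, rfl⟩
  have hYs : ∀ a ∈ (compose f g).inst, ∀ q, closedOf q = paths (kernelTree (treeOf (Φ1 a))) →
      Y (CB.pair a q) ∈ g.sol a := by
    intro a ha q hq
    show Ψ1 (CB.pair (ev (CB.pair a q)) (tr (od (CB.pair a q)))) ∈ _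
    rw [ev_pair, od_pair]
    exact (hg a ha.1).2 _ (htrs a q hq)
  let Z : Baire → Baire := fun x => Φ2 (Y x)
  have hYf : ∀ x ∈ G, Y x ∈ f.inst := by
    rintro x ⟨a, ha, q, hq, rfl⟩
    exact ha.2 (hYs a ha q hq)
  have hZ : ComputableOn G Z := hY.comp hΦ2 hYf
  obtain ⟨R, hR, hmonoR, hZR⟩ := (computableOn_iff.1 hZ).monotone
  obtain ⟨K, hK1, hK2, hK3⟩ := exists_query (D := (compose f g).inst)
    (hΦ1.mono fun a ha => ha.1) (fun a ha => (hg a ha.1).1) (UR.qn hR)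
  have hA : ∀ a ∈ (compose f g).inst, ∀ b ∈ PKT.sol (K a), Answers (treeOf (Φ1 a)) R a b :=
    fun a ha b hb => answers_of (hK3 a ha) hb.1 hb.2
  have hZ1 : ∀ a ∈ (compose f g).inst, ∀ q, closedOf q = paths (kernelTree (treeOf (Φ1 a))) →
      ∀ x : ℕ × ℕ, (Z (CB.pair a q) x.1 = x.2 ↔ ∃ m, R (seg (CB.pair a q) m) x) :=
    fun a ha q hq x => hZR _ ⟨a, ha, q, hq, rfl⟩ x
  have hZ2 : ∀ a ∈ (compose f g).inst, ∀ q, closedOf q = paths (kernelTree (treeOf (Φ1 a))) →
      Z (CB.pair a q) ∈ limP.inst :=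
    fun a ha q hq => (hf _ (hYf _ ⟨a, ha, q, hq, rfl⟩)).1
  let D' : Set Baire := {x | ∃ p ∈ (compose f g).inst, ∃ q ∈ PKT.sol (K p), x = CB.pair p q}
  have hD : ∀ x ∈ D', ∀ n, ∃ w, good (od x) n (run (od x) n) w := by
    rintro x ⟨a, ha, b, hb, rfl⟩ n
    rw [od_pair]
    exact exists_good (hA a ha b hb) (hZ1 a ha) (hZ2 a ha) n
      (run_valid (hA a ha b hb) (hZ1 a ha) (hZ2 a ha) n)
  have hrun : ∀ a ∈ (compose f g).inst, ∀ b ∈ PKT.sol (K a),
      closedOf (qOf b) = paths (kernelTree (treeOf (Φ1 a))) ∧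
      yOf b ∈ limP.sol (Z (CB.pair a (qOf b))) :=
    fun a ha b hb => run_good (hA a ha b hb) (hZ1 a ha) (hZ2 a ha)
  let Ψ : Baire → Baire := fun x =>
    Ψ2 (CB.pair (Y (CB.pair (ev x) (qOf (od x)))) (yOf (od x)))
  have c1 : ComputableOn D' fun x => CB.pair (ev x) (qOf (od x)) :=
    ComputableOn.pair ComputableOn.ev (computable_q hD)
  have c2 : ComputableOn D' fun x => Y (CB.pair (ev x) (qOf (od x))) := by
    refine c1.comp hY ?_
    rintro x ⟨a, ha, b, hb, rfl⟩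
    rw [ev_pair, od_pair]
    exact ⟨a, ha, qOf b, (hrun a ha b hb).1, rfl⟩
  have c3 : ComputableOn D' Ψ := by
    refine ComputableOn.comp (F := fun x => CB.pair (Y (CB.pair (ev x) (qOf (od x))))
      (yOf (od x))) (ComputableOn.pair c2 (computable_y hD)) hΨ2 ?_
    rintro x ⟨a, ha, b, hb, rfl⟩
    rw [ev_pair, od_pair]
    exact ⟨_, hYf _ ⟨a, ha, qOf b, (hrun a ha b hb).1, rfl⟩, yOf b, (hrun a ha b hb).2, rfl⟩
  refine ⟨K, Ψ, hK1, c3, fun a ha => ⟨hK2 a, fun b hb => ?_⟩⟩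
  show Ψ2 (CB.pair (Y (CB.pair (ev (CB.pair a b)) (qOf (od (CB.pair a b)))))
    (yOf (od (CB.pair a b)))) ∈ _
  rw [ev_pair, od_pair]
  refine ⟨Y (CB.pair a (qOf b)), hYs a ha _ (hrun a ha b hb).1, ?_⟩
  exact (hf _ (hYf _ ⟨a, ha, qOf b, (hrun a ha b hb).1, rfl⟩)).2 _ (hrun a ha b hb).2

end Pool.Agent.X219.PK
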