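import Pool.Agent.X219.PK.Query

/-! Generic names of the perfect kernel. -/

set_option autoImplicit false

namespace Pool.Agent.X219.PK

open Pool.Agent.X219.CB Pool.Agent.Helper446

/-- The limit of a chain. -/
def lim (τ : ℕ → List ℕ) : Baire := fun n => (τ (n + 1)).getD n 0

theorem mem_cyl_lim {τ : ℕ → List ℕ} (h : ∀ i, τ i <+: τ (i + 1)) (hl : ∀ i, i ≤ (τ i).length)
    (i : ℕ) : lim τ ∈ cyl (τ i) := by
  have hmono : ∀ i j, i ≤ j → τ i <+: τ j := by
    intro i j hij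
    induction j, hij using Nat.le_induction with
    | base => exact List.prefix_rfl
    | succ j _ ih => exact ih.trans (h j)
  rw [mem_cyl_iff]
  intro n hn
  rcases le_total i (n + 1) with h1 | h1
  · exact (prefix_getD (hmono _ _ h1) hn).symm
  · exact prefix_getD (hmono _ _ h1) (hl (n + 1))

theorem invalid_append {T : Set (List ℕ)} {s t : List ℕ} (hs : ¬ Invalid T s)
    (ht : ¬ Invalid T t) : ¬ Invalid T (s ++ t) := by
  rintro ⟨ρ, h1, h2⟩
  rcases List.mem_append.1 h1 with h | h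
  · exact hs ⟨ρ, h, h2⟩
  · exact ht ⟨ρ, h, h2⟩

theorem invalid_mono {T : Set (List ℕ)} {s t : List ℕ} (h : s <+: t) (ht : ¬ Invalid T t) :
    ¬ Invalid T s := by
  rintro ⟨ρ, h1, h2⟩
  exact ht ⟨ρ, h.subset h1, h2⟩

theorem invalid_zero {T : Set (List ℕ)} (n : ℕ) : ¬ Invalid T (List.replicate n 0) := by
  rintro ⟨ρ, h1, -⟩
  have := List.eq_of_mem_replicate h1
  omega

theorem good_of_chain {T : Set (List ℕ)} {τ : ℕ → List ℕ} (h : ∀ i, τ i <+: τ (i + 1))
    (hl : ∀ i, i ≤ (τ i).length) (hv : ∀ i, ¬ Invalid T (τ i))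
    (hc : ∀ k, ¬ Invalid T [k + 1] → k + 1 ∈ τ (k + 1)) :
    closedOf (lim τ) = paths (kernelTree T) := by
  ext x
  constructor
  · intro hx n
    by_contra hn
    have h1 : ¬ Invalid T [Encodable.encode (seg x n) + 1] := by
      rintro ⟨ρ, h2, h3⟩
      have h4 : Encodable.encode ρ = Encodable.encode (seg x n) := by simpa using h2
      have h5 : ρ = seg x n := Encodable.encode_injective h4
      rw [h5] at h3
      exact hn h3
    obtain ⟨i, hi, h2⟩ := List.getElem_of_mem (hc _ h1)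
    refine hx i (seg x n) ?_ (mem_cyl_seg x n)
    rw [mem_cyl_iff.1 (mem_cyl_lim h hl _) i hi, List.getD_eq_getElem _ _ hi]
    exact h2
  · intro hx n s hn hs
    have h1 : n < (τ (n + 1)).length := hl (n + 1)
    have h2 : Encodable.encode s + 1 ∈ τ (n + 1) := by
      rw [← hn]
      show (τ (n + 1)).getD n 0 ∈ _
      rw [List.getD_eq_getElem _ _ h1]
      exact List.getElem_mem h1
    refine hv (n + 1) ⟨s, h2, ?_⟩
    have h3 : seg x s.length = s := hs
    rw [← h3]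
    exact hx _

theorem valid_seg {T : Set (List ℕ)} {q : Baire} (hq : closedOf q = paths (kernelTree T))
    (m : ℕ) : ¬ Invalid T (seg q m) := by
  rintro ⟨ρ, h1, h2⟩
  obtain ⟨x, hx1, hx2⟩ := exists_path (isTree_kernel T) (branching_kernel T) h2
  rw [← hq] at hx1
  simp only [seg, List.mem_map, List.mem_range] at h1
  obtain ⟨i, -, hi⟩ := h1
  exact hx1 i ρ hi hx2

theorem exists_tr : ∃ tr : Baire → Baire, ComputableOn Set.univ tr ∧ (∀ q, TreeName (tr q)) ∧
    ∀ q, paths (treeOf (tr q)) = closedOf q := by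
  have hB : UR Set.univ fun q (σ : List ℕ) => ∃ y : ℕ × List ℕ,
      q y.1 = Encodable.encode y.2 + 1 ∧ y.2 <+: σ := by
    refine UR.ex (S := fun q (σ : List ℕ) (y : ℕ × List ℕ) =>
      q y.1 = Encodable.encode y.2 + 1 ∧ y.2 <+: σ) (UR.and ?_
        (UR.of_re (re_prefix (by fun_prop) (by fun_prop))))
    exact UR.query (f := fun x : List ℕ × (ℕ × List ℕ) => x.2.1)
      (g := fun x : List ℕ × (ℕ × List ℕ) => Encodable.encode x.2.2 + 1)
      (by fun_prop) (by fun_prop)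
  obtain ⟨K, hK1, hK2, hK3⟩ := exists_tree hB
  refine ⟨K, hK1, hK2, fun q => ?_⟩
  rw [hK3 q (Set.mem_univ q)]
  ext x
  constructor
  · intro hx n s hn hs
    exact hx s.length ⟨(n, s), hn, prefix_of_mem hs le_rfl⟩
  · rintro hx m ⟨⟨n, s⟩, h1, h2⟩
    exact hx n s h1 ((prefix_seg_iff (by simpa using h2.length_le)).1 h2)

/-- The relation `R` holds for a finite part of the pair of `a` and `t`. -/
def Det (R : List ℕ → ℕ × ℕ → Prop) (a : Baire) (t : List ℕ) (x : ℕ × ℕ) : Prop :=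
  ∃ w : List ℕ, (∀ i < w.length, (i % 2 = 0 ∧ ∃ c, w[i]? = some c ∧ a (i / 2) = c) ∨
    (i % 2 ≠ 0 ∧ w[i]? = t[i / 2]?)) ∧ R w x

theorem UR.det {D : Set Baire} {R : List ℕ → ℕ × ℕ → Prop}
    (hR : REPred fun x : List ℕ × (ℕ × ℕ) => R x.1 x.2) :
    UR D fun a (x : List ℕ × (ℕ × ℕ)) => Det R a x.1 x.2 := by
  unfold Det
  have hm : Computable fun x : ((List ℕ × (ℕ × ℕ)) × List ℕ) × ℕ => x.2 % 2 :=
    computable_mod2.comp Computable.snd
  have hh : Computable fun x : ((List ℕ × (ℕ × ℕ)) × List ℕ) × ℕ => x.2 / 2 :=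
    computable_half.comp Computable.snd
  have hh' : Computable fun x : (((List ℕ × (ℕ × ℕ)) × List ℕ) × ℕ) × ℕ => x.1.2 / 2 :=
    computable_half.comp (Computable.snd.comp Computable.fst)
  refine UR.ex (S := fun a (x : List ℕ × (ℕ × ℕ)) (w : List ℕ) => (∀ i < w.length,
    (i % 2 = 0 ∧ ∃ c, w[i]? = some c ∧ a (i / 2) = c) ∨
    (i % 2 ≠ 0 ∧ w[i]? = x.1[i / 2]?)) ∧ R w x.2) (UR.and ?_ (UR.of_re ?_))
  · refine UR.all_lt (S := fun a (x : (List ℕ × (ℕ × ℕ)) × List ℕ) i =>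
      (i % 2 = 0 ∧ ∃ c, x.2[i]? = some c ∧ a (i / 2) = c) ∨
      (i % 2 ≠ 0 ∧ x.2[i]? = x.1.1[i / 2]?)) ?_
      (f := fun x : (List ℕ × (ℕ × ℕ)) × List ℕ => x.2.length) (by fun_prop)
    refine UR.or (UR.and (UR.of_re (RE.eq hm (by fun_prop))) ?_)
      (UR.of_re (RE.and (RE.ne hm (by fun_prop)) (RE.eq (by fun_prop) (by fun_prop))))
    refine UR.ex (S := fun a (x : ((List ℕ × (ℕ × ℕ)) × List ℕ) × ℕ) c =>
      x.1.2[x.2]? = some c ∧ a (x.2 / 2) = c)
      (UR.and (UR.of_re (RE.eq (by fun_prop) (by fun_prop))) ?_)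
    exact UR.query (f := fun x : (((List ℕ × (ℕ × ℕ)) × List ℕ) × ℕ) × ℕ => x.1.2 / 2)
      (g := fun x : (((List ℕ × (ℕ × ℕ)) × List ℕ) × ℕ) × ℕ => x.2) hh' (by fun_prop)
  · exact RE.comp hR (f := fun x : (List ℕ × (ℕ × ℕ)) × List ℕ => (x.2, x.1.2)) (by fun_prop)

theorem Det.mono {R : List ℕ → ℕ × ℕ → Prop} {a : Baire} {s t : List ℕ} {x : ℕ × ℕ}
    (h : s <+: t) (hd : Det R a s x) : Det R a t x := by
  obtain ⟨w, h1, h2⟩ := hd
  refine ⟨w, fun i hi => ?_, h2⟩
  rcases h1 i hi with h3 | ⟨h3, h4⟩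
  · exact Or.inl h3
  · refine Or.inr ⟨h3, ?_⟩
    rw [h4]
    obtain ⟨r, rfl⟩ := h
    have h5 : i / 2 < s.length := by
      by_contra hc
      rw [List.getElem?_eq_none (l := s) (by omega), List.getElem?_eq_getElem hi] at h4
      cases h4
    rw [List.getElem?_append_left h5]

theorem Det.sound {R : List ℕ → ℕ × ℕ → Prop} {a q : Baire} {t : List ℕ} {x : ℕ × ℕ}
    (hq : q ∈ cyl t) (hd : Det R a t x) : ∃ m, R (seg (CB.pair a q) m) x := by
  obtain ⟨w, h1, h2⟩ := hd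
  refine ⟨w.length, ?_⟩
  have h3 : seg (CB.pair a q) w.length = w := by
    refine List.ext_getElem (by simp) fun i h4 h5 => ?_
    have h6 : (seg (CB.pair a q) w.length)[i] = CB.pair a q i := by simp [seg]
    rw [h6]
    rcases h1 i h5 with ⟨h7, c, h8, h9⟩ | ⟨h7, h8⟩
    · rw [List.getElem?_eq_getElem h5] at h8
      have h10 : w[i] = c := Option.some_injective _ h8
      simp only [CB.pair, h7, if_true]
      rw [h9, h10]
    · have h11 : i / 2 < t.length := by
        by_contra hc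
        rw [List.getElem?_eq_none (l := t) (by omega), List.getElem?_eq_getElem h5] at h8
        cases h8
      rw [List.getElem?_eq_getElem h5, List.getElem?_eq_getElem h11] at h8
      have h10 : w[i] = t[i / 2] := Option.some_injective _ h8
      simp only [CB.pair, h7, if_false]
      rw [mem_cyl_iff.1 hq _ h11, List.getD_eq_getElem _ _ h11, h10]
  rw [h3]
  exact h2

theorem Det.complete {R : List ℕ → ℕ × ℕ → Prop} {a q : Baire} {m : ℕ} {x : ℕ × ℕ}
    (h : R (seg (CB.pair a q) m) x) : Det R a (seg q m) x := by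
  refine ⟨seg (CB.pair a q) m, fun i hi => ?_, h⟩
  rw [length_seg] at hi
  by_cases h1 : i % 2 = 0
  · exact Or.inl ⟨h1, a (i / 2), by simp [seg, hi, CB.pair, h1], rfl⟩
  · refine Or.inr ⟨h1, ?_⟩
    have h2 : i / 2 < m := by omega
    simp [seg, hi, h2, CB.pair, h1]

end Pool.Agent.X219.PK
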