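import Pool.Agent.X219.PK.Trees

/-! The tree which answers coanalytic questions. -/

set_option autoImplicit false

namespace Pool.Agent.X219.PK

open Pool.Agent.X219.CB Pool.Agent.Helper446

variable {D : Set Baire}

/-- The value of the witness at `k`, as far as `σ` knows it. -/
def wv (σ : List ℕ) (k : ℕ) : Option ℕ := σ[2 * k + 1]?

@[fun_prop] theorem cwv {α : Type} [Primcodable α] {f : α → List ℕ} {g : α → ℕ}
    (hf : Computable f) (hg : Computable g) : Computable fun a => wv (f a) (g a) := by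
  unfold wv
  fun_prop

/-- The two extensions given by a witness value do not fit. -/
def misfit (σ : List ℕ) (e j w : ℕ) : Prop :=
  ¬ str j <+: str (Nat.unpair w).1 ∨ ¬ str j <+: str (Nat.unpair w).2 ∨
  str (Nat.unpair w).1 <+: str (Nat.unpair w).2 ∨ str (Nat.unpair w).2 <+: str (Nat.unpair w).1 ∨
  wv σ (Nat.pair e ((Nat.unpair w).1 + 1)) = some 0 ∨
  wv σ (Nat.pair e ((Nat.unpair w).2 + 1)) = some 0

/-- The string `σ` shows that the witness for `t` is wrong. -/
def Viol (p : Baire) (σ t : List ℕ) : Prop :=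
  (∃ c, wv σ (Nat.pair (Encodable.encode t) 0) = some c ∧ c + 1 ∉ t) ∨
  (∃ c, wv σ (Nat.pair (Encodable.encode t) 0) = some c ∧
    wv σ (Nat.pair (Encodable.encode t) (c + 1)) = some 0) ∨
  (∃ j w, wv σ (Nat.pair (Encodable.encode t) (j + 1)) = some (w + 1) ∧
    ((∃ k, k ≠ 1 ∧ p j = k) ∨ misfit σ (Encodable.encode t) j w))

theorem re_misfit : REPred fun x : (List ℕ × ℕ) × (ℕ × ℕ) => misfit x.1.1 x.1.2 x.2.1 x.2.2 := by
  unfold misfit
  refine RE.or (re_not_prefix (by fun_prop) (by fun_prop)) (RE.or (re_not_prefix (by fun_prop)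
    (by fun_prop)) (RE.or (re_prefix (by fun_prop) (by fun_prop)) (RE.or (re_prefix (by fun_prop)
    (by fun_prop)) (RE.or (RE.eq (by fun_prop) (by fun_prop))
    (RE.eq (by fun_prop) (by fun_prop))))))

theorem UR.viol {Φ : Baire → Baire} (hΦ : ComputableOn D Φ) :
    UR D fun a (x : List ℕ × List ℕ) => Viol (Φ a) x.1 x.2 := by
  rw [computableOn_iff] at hΦ
  unfold Viol
  refine UR.or (UR.of_re ?_) (UR.or (UR.of_re ?_) ?_)
  · refine RE.ex (p := fun (x : List ℕ × List ℕ) (c : ℕ) =>
      wv x.1 (Nat.pair (Encodable.encode x.2) 0) = some c ∧ c + 1 ∉ x.2) ?_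
    exact RE.and (RE.eq (by fun_prop) (by fun_prop)) (RE.not_mem_list (by fun_prop) (by fun_prop))
  · refine RE.ex (p := fun (x : List ℕ × List ℕ) (c : ℕ) =>
      wv x.1 (Nat.pair (Encodable.encode x.2) 0) = some c ∧
      wv x.1 (Nat.pair (Encodable.encode x.2) (c + 1)) = some 0) ?_
    exact RE.and (RE.eq (by fun_prop) (by fun_prop)) (RE.eq (by fun_prop) (by fun_prop))
  · refine UR.ex (S := fun a (x : List ℕ × List ℕ) (j : ℕ) => ∃ w,
      wv x.1 (Nat.pair (Encodable.encode x.2) (j + 1)) = some (w + 1) ∧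
      ((∃ k, k ≠ 1 ∧ Φ a j = k) ∨ misfit x.1 (Encodable.encode x.2) j w)) ?_
    refine UR.ex (S := fun a (x : (List ℕ × List ℕ) × ℕ) (w : ℕ) =>
      wv x.1.1 (Nat.pair (Encodable.encode x.1.2) (x.2 + 1)) = some (w + 1) ∧
      ((∃ k, k ≠ 1 ∧ Φ a x.2 = k) ∨ misfit x.1.1 (Encodable.encode x.1.2) x.2 w)) ?_
    refine UR.and (UR.of_re (RE.eq (by fun_prop) (by fun_prop))) (UR.or ?_ (UR.of_re ?_))
    · refine UR.ex (S := fun a (x : ((List ℕ × List ℕ) × ℕ) × ℕ) (k : ℕ) =>
        k ≠ 1 ∧ Φ a x.1.2 = k) ?_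
      refine UR.and (UR.of_re (RE.ne (by fun_prop) (by fun_prop))) ?_
      exact hΦ.comp (f := fun x : (((List ℕ × List ℕ) × ℕ) × ℕ) × ℕ => (x.1.1.2, x.2))
        (by fun_prop)
    · exact RE.comp re_misfit (f := fun x : ((List ℕ × List ℕ) × ℕ) × ℕ =>
        ((x.1.1.1, Encodable.encode x.1.1.2), (x.1.2, x.2))) (by fun_prop)

theorem wv_seg {x : Baire} {m k c : ℕ} (h : wv (seg x m) k = some c) : x (2 * k + 1) = c := by
  simp only [wv, seg, List.getElem?_map] at h
  by_cases h1 : 2 * k + 1 < m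
  · simpa [h1] using h
  · simp [h1] at h

theorem wv_seg' {x : Baire} {m k : ℕ} (h : 2 * k + 1 < m) :
    wv (seg x m) k = some (x (2 * k + 1)) := by
  simp [wv, seg, h]

/-- The condition `t` removes a string of the largest perfect subtree. -/
def Invalid (T : Set (List ℕ)) (t : List ℕ) : Prop :=
  ∃ ρ, Encodable.encode ρ + 1 ∈ t ∧ ρ ∈ kernelTree T

theorem exists_query {Φ : Baire → Baire} (hΦ : ComputableOn D Φ)
    (hΦT : ∀ a ∈ D, TreeName (Φ a)) {E : Baire → ℕ × List ℕ → Prop} (hE : UR D E) :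
    ∃ K : Baire → Baire, ComputableOn D K ∧ (∀ a, TreeName (K a)) ∧
      ∀ a ∈ D, ∀ z, ([z] ∈ kernelTree (treeOf (K a)) ↔
        ∀ t, E a (z, t) → Invalid (treeOf (Φ a)) t) := by
  classical
  have hB : UR D fun a (σ : List ℕ) => ∃ y : ℕ × List ℕ, σ[0]? = some y.1 ∧ E a y ∧
      Viol (Φ a) σ y.2 := by
    refine UR.ex (S := fun a (σ : List ℕ) (y : ℕ × List ℕ) => σ[0]? = some y.1 ∧ E a y ∧
      Viol (Φ a) σ y.2) (UR.and (UR.of_re (RE.eq (by fun_prop) (by fun_prop)))
      (UR.and ?_ ?_))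
    · exact hE.comp (f := fun x : List ℕ × (ℕ × List ℕ) => x.2) (by fun_prop)
    · exact (UR.viol hΦ).comp (f := fun x : List ℕ × (ℕ × List ℕ) => (x.1, x.2.2)) (by fun_prop)
  obtain ⟨K, hK1, hK2, hK3⟩ := exists_tree hB
  refine ⟨K, hK1, hK2, fun a ha z => ⟨?_, ?_⟩⟩
  · intro hz t ht
    obtain ⟨x, hx, hxz⟩ := exists_path (isTree_kernel _) (branching_kernel _) hz
    have hx2 : x ∈ paths (treeOf (K a)) := fun n => kernel_subset _ (hx n)
    rw [hK3 a ha] at hx2
    have hx0 : x 0 = z := by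
      have := mem_cyl_iff.1 hxz 0 (by simp)
      simpa using this
    have hno : ∀ m, 0 < m → ¬ Viol (Φ a) (seg x m) t := by
      intro m hm hv
      refine hx2 m ⟨(z, t), ?_, ht, hv⟩
      simp [seg, hm, hx0]
    let W : ℕ → ℕ := fun k => x (2 * k + 1)
    let e := Encodable.encode t
    let c := W (Nat.pair e 0)
    have h1 : c + 1 ∈ t := by
      by_contra hc
      refine hno (2 * Nat.pair e 0 + 2) (by omega) (Or.inl ⟨c, ?_, hc⟩)
      exact wv_seg' (show 2 * Nat.pair e 0 + 1 < _ by omega)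
    have h2 : W (Nat.pair e (c + 1)) ≠ 0 := by
      intro hc
      let m := max (2 * Nat.pair e 0 + 2) (2 * Nat.pair e (c + 1) + 2)
      refine hno m (by omega) (Or.inr (Or.inl ⟨c,
        wv_seg' (show 2 * Nat.pair e 0 + 1 < m by omega), ?_⟩))
      exact (wv_seg' (show 2 * Nat.pair e (c + 1) + 1 < m by omega)).trans (congrArg some hc)
    have h3 : ∀ j w, W (Nat.pair e (j + 1)) = w + 1 → Φ a j = 1 ∧
        str j <+: str (Nat.unpair w).1 ∧ str j <+: str (Nat.unpair w).2 ∧
        ¬ str (Nat.unpair w).1 <+: str (Nat.unpair w).2 ∧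
        ¬ str (Nat.unpair w).2 <+: str (Nat.unpair w).1 ∧
        W (Nat.pair e ((Nat.unpair w).1 + 1)) ≠ 0 ∧
        W (Nat.pair e ((Nat.unpair w).2 + 1)) ≠ 0 := by
      intro j w hw
      let m := max (2 * Nat.pair e (j + 1) + 2) (max (2 * Nat.pair e ((Nat.unpair w).1 + 1) + 2)
        (2 * Nat.pair e ((Nat.unpair w).2 + 1) + 2))
      have h4 : ¬ ((∃ k, k ≠ 1 ∧ Φ a j = k) ∨ misfit (seg x m) e j w) := by
        intro hc
        refine hno m (by omega) (Or.inr (Or.inr ⟨j, w, ?_, hc⟩))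
        rw [wv_seg' (show 2 * Nat.pair e (j + 1) + 1 < m by omega)]
        exact congrArg some hw
      unfold misfit at h4
      push Not at h4
      obtain ⟨h5, h6, h7, h8, h9, h10, h11⟩ := h4
      refine ⟨?_, h6, h7, h8, h9, ?_, ?_⟩
      · by_contra hc
        exact h5 _ hc rfl
      · intro hc
        apply h10
        rw [wv_seg' (show 2 * Nat.pair e ((Nat.unpair w).1 + 1) + 1 < m by omega)]
        exact congrArg some hc
      · intro hc
        apply h11
        rw [wv_seg' (show 2 * Nat.pair e ((Nat.unpair w).2 + 1) + 1 < m by omega)]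
        exact congrArg some hc
    refine ⟨str c, by rw [encode_str]; exact h1, ?_⟩
    refine mem_kernel_of (hΦT a ha).2
      (G := {ρ | W (Nat.pair e (Encodable.encode ρ + 1)) ≠ 0}) ?_ ?_ ?_
    · intro ρ hρ
      obtain ⟨w, hw⟩ := Nat.exists_eq_succ_of_ne_zero (show W _ ≠ 0 from hρ)
      exact (h3 _ w hw).1
    · intro ρ hρ
      obtain ⟨w, hw⟩ := Nat.exists_eq_succ_of_ne_zero (show W _ ≠ 0 from hρ)
      obtain ⟨-, h6, h7, h8, h9, h10, h11⟩ := h3 _ w hw
      rw [str_encode] at h6 h7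
      refine ⟨str (Nat.unpair w).1, ?_, str (Nat.unpair w).2, ?_, h6, h7, h8, h9⟩
      · show W (Nat.pair e (Encodable.encode (str (Nat.unpair w).1) + 1)) ≠ 0
        rw [encode_str]
        exact h10
      · show W (Nat.pair e (Encodable.encode (str (Nat.unpair w).2) + 1)) ≠ 0
        rw [encode_str]
        exact h11
    · show W (Nat.pair e (Encodable.encode (str c) + 1)) ≠ 0
      rw [encode_str]
      exact h2
  · intro h
    have h1 : ∀ t, ∃ (c : ℕ) (G : List ℕ → Option (List ℕ × List ℕ)), E a (z, t) →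
        (c + 1 ∈ t ∧ G (str c) ≠ none ∧ ∀ ρ τ₁ τ₂, G ρ = some (τ₁, τ₂) → ρ ∈ treeOf (Φ a) ∧
          ρ <+: τ₁ ∧ ρ <+: τ₂ ∧ ¬ τ₁ <+: τ₂ ∧ ¬ τ₂ <+: τ₁ ∧ G τ₁ ≠ none ∧ G τ₂ ≠ none) := by
      intro t
      by_cases ht : E a (z, t)
      · obtain ⟨ρ, h2, S, h3, h4, h5, h6⟩ := h t ht
        have h7 : ∀ σ, ∃ y : List ℕ × List ℕ, σ ∈ S → y.1 ∈ S ∧ y.2 ∈ S ∧ σ <+: y.1 ∧
            σ <+: y.2 ∧ ¬ y.1 <+: y.2 ∧ ¬ y.2 <+: y.1 := by
          intro σ
          by_cases hσ : σ ∈ S
          · obtain ⟨τ₁, h8, τ₂, h9, h10⟩ := h5 σ hσ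
            exact ⟨(τ₁, τ₂), fun _ => ⟨h8, h9, h10⟩⟩
          · exact ⟨([], []), fun h => absurd h hσ⟩
        choose y hy using h7
        let G0 : List ℕ → Option (List ℕ × List ℕ) := fun σ => if σ ∈ S then some (y σ) else none
        have hG1 : ∀ σ, σ ∈ S → G0 σ = some (y σ) := fun σ h => if_pos h
        have hG2 : ∀ σ, σ ∉ S → G0 σ = none := fun σ h => if_neg h
        refine ⟨Encodable.encode ρ, G0, fun _ => ⟨h2, ?_, ?_⟩⟩
        · rw [str_encode, hG1 _ h6]
          simp
        · intro σ τ₁ τ₂ hσ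
          by_cases hS : σ ∈ S
          · rw [hG1 _ hS] at hσ
            have hyσ : y σ = (τ₁, τ₂) := Option.some_injective _ hσ
            obtain ⟨h8, h9, h10, h11, h12, h13⟩ := hy σ hS
            rw [hyσ] at h8 h9 h10 h11 h12 h13
            refine ⟨h3 hS, h10, h11, h12, h13, ?_, ?_⟩
            · rw [hG1 _ h8]
              simp
            · rw [hG1 _ h9]
              simp
          · rw [hG2 _ hS] at hσ
            cases hσ
      · exact ⟨0, fun _ => none, fun h => absurd h ht⟩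
    choose c G hcG using h1
    let gv : Option (List ℕ × List ℕ) → ℕ := fun o => match o with
      | none => 0
      | some y => Nat.pair (Encodable.encode y.1) (Encodable.encode y.2) + 1
    let W : ℕ → ℕ := fun k => match (Nat.unpair k).2 with
      | 0 => c (str (Nat.unpair k).1)
      | j + 1 => gv (G (str (Nat.unpair k).1) (str j))
    have hW0 : ∀ t, W (Nat.pair (Encodable.encode t) 0) = c t := by
      intro t
      simp [W, Nat.unpair_pair]
    have hW1 : ∀ t j, W (Nat.pair (Encodable.encode t) (j + 1)) = gv (G t (str j)) := by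
      intro t j
      simp [W, Nat.unpair_pair]
    have hgv0 : ∀ o, gv o = 0 → o = none := by
      rintro (_ | y) ho
      · rfl
      · simp [gv] at ho
    have hgv1 : ∀ o w, gv o = w + 1 → ∃ τ₁ τ₂, o = some (τ₁, τ₂) ∧ (Nat.unpair w).1 =
        Encodable.encode τ₁ ∧ (Nat.unpair w).2 = Encodable.encode τ₂ := by
      rintro (_ | ⟨τ₁, τ₂⟩) w ho
      · simp [gv] at ho
      · refine ⟨τ₁, τ₂, rfl, ?_⟩
        have : w = Nat.pair (Encodable.encode τ₁) (Encodable.encode τ₂) := by
          simp only [gv] at ho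
          omega
        rw [this, Nat.unpair_pair]
        exact ⟨rfl, rfl⟩
    have hgood : ∀ x : Baire, x 0 = z → (∀ k, x (2 * k + 1) = W k) →
        x ∈ paths (treeOf (K a)) := by
      intro x hx0 hxW
      rw [hK3 a ha]
      rintro m ⟨⟨z', t⟩, h2, h3, h4⟩
      dsimp only at h2 h3 h4
      have hz' : z' = z := by
        have hm : 0 < m := by
          by_contra hm
          have : m = 0 := by omega
          subst this
          simp [seg] at h2
        have : (seg x m)[0]? = some (x 0) := by simp [seg, hm]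
        rw [this, hx0] at h2
        exact (Option.some_injective _ h2).symm
      subst hz'
      obtain ⟨h5, h6, h7⟩ := hcG t h3
      rcases h4 with ⟨c', h8, h9⟩ | ⟨c', h8, h9⟩ | ⟨j, w, h8, h9⟩
      · have := wv_seg h8
        rw [hxW, hW0] at this
        rw [← this] at h9
        exact h9 h5
      · have h10 := wv_seg h8
        rw [hxW, hW0] at h10
        have h11 := wv_seg h9
        rw [hxW, hW1, ← h10] at h11
        exact h6 (hgv0 _ h11)
      · have h10 := wv_seg h8
        rw [hxW, hW1] at h10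
        obtain ⟨τ₁, τ₂, h11, h12, h13⟩ := hgv1 _ _ h10
        obtain ⟨h14, h15, h16, h17, h18, h19, h20⟩ := h7 _ _ _ h11
        rcases h9 with ⟨k, h21, h22⟩ | h9
        · have h23 : Φ a (Encodable.encode (str j)) = 1 := h14
          rw [encode_str, h22] at h23
          exact h21 h23
        · unfold misfit at h9
          rw [h12, h13, str_encode, str_encode] at h9
          rcases h9 with h9 | h9 | h9 | h9 | h9 | h9
          · exact h9 h15
          · exact h9 h16
          · exact h17 h9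
          · exact h18 h9
          · have h21 := wv_seg h9
            rw [hxW, hW1, str_encode] at h21
            exact h19 (hgv0 _ h21)
          · have h21 := wv_seg h9
            rw [hxW, hW1, str_encode] at h21
            exact h20 (hgv0 _ h21)
    let P : Baire → Prop := fun x => x 0 = z ∧ ∀ k, x (2 * k + 1) = W k
    refine ⟨{σ | ∃ x, P x ∧ x ∈ cyl σ}, ?_, ?_, ?_, ?_⟩
    · rintro σ ⟨x, ⟨hx0, hxW⟩, hxσ⟩
      have h2 : seg x σ.length = σ := hxσ
      rw [← h2]
      exact hgood x hx0 hxW _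
    · rintro σ τ hst ⟨x, hx, hxτ⟩
      exact ⟨x, hx, cyl_anti hst hxτ⟩
    · rintro σ ⟨x, ⟨hx0, hxW⟩, hxσ⟩
      let n := 2 * σ.length + 2
      let y : Baire := fun i => if i = n then x n + 1 else x i
      have hy : P y := by
        refine ⟨?_, fun k => ?_⟩
        · show (if 0 = n then x n + 1 else x 0) = z
          rw [if_neg (by omega)]
          exact hx0
        · show (if 2 * k + 1 = n then x n + 1 else x (2 * k + 1)) = W k
          rw [if_neg (by omega)]
          exact hxW k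
      have hyσ : y ∈ cyl σ := by
        rw [mem_cyl_iff] at hxσ ⊢
        intro i hi
        show (if i = n then x n + 1 else x i) = _
        rw [if_neg (by omega)]
        exact hxσ i hi
      have hne : seg x (n + 1) ≠ seg y (n + 1) := by
        intro hc
        have h3 := seg_eq_iff.1 hc n (by omega)
        have h4 : y n = x n + 1 := if_pos rfl
        omega
      refine ⟨seg x (n + 1), ⟨x, ⟨hx0, hxW⟩, mem_cyl_seg _ _⟩, seg y (n + 1),
        ⟨y, hy, mem_cyl_seg _ _⟩, prefix_of_mem hxσ (by omega), prefix_of_mem hyσ (by omega),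
        fun hc => hne (hc.eq_of_length (by simp)), fun hc => hne (hc.eq_of_length (by simp)).symm⟩
    · refine ⟨fun i => if i = 0 then z else W ((i - 1) / 2), ⟨rfl, fun k => ?_⟩, ?_⟩
      · have h2 : (2 * k + 1 - 1) / 2 = k := by omega
        simp [h2]
      · rw [mem_cyl_iff]
        intro i hi
        have : i = 0 := by simpa using hi
        subst this
        simp

end Pool.Agent.X219.PK
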