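import Pool.Agent.X219.PK.UR

/-! Perfect trees, and how the largest perfect subtree answers coanalytic questions. -/

set_option autoImplicit false

namespace Pool.Agent.X219.PK

open Pool.Agent.X219.CB Pool.Agent.Helper446

theorem exists_path {S : Set (List ℕ)} (hS : IsTree S) (hB : Branching S) {σ : List ℕ}
    (hσ : σ ∈ S) : ∃ x ∈ paths S, x ∈ cyl σ := by
  have hstep : ∀ τ, τ ∈ S → ∃ τ', τ' ∈ S ∧ τ <+: τ' ∧ τ.length < τ'.length := by
    intro τ hτ
    obtain ⟨τ₁, h1, τ₂, -, h3, h4, h5, -⟩ := hB τ hτ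
    refine ⟨τ₁, h1, h3, ?_⟩
    rcases h3.length_le.lt_or_eq with h | h
    · exact h
    · exact absurd (h3.eq_of_length h ▸ h4) h5
  choose! nx hn1 hn2 hn3 using hstep
  let ρ : ℕ → List ℕ := fun n => Nat.rec σ (fun _ t => nx t) n
  have hρ : ∀ n, ρ n ∈ S := by
    intro n
    induction n with
    | zero => exact hσ
    | succ n ih => exact hn1 _ ih
  have hlen : ∀ n, n ≤ (ρ n).length := by
    intro n
    induction n with
    | zero => exact Nat.zero_le _
    | succ n ih => exact Nat.succ_le_of_lt (ih.trans_lt (hn3 _ (hρ n)))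
  obtain ⟨x, hx⟩ := chain_limit (τ := ρ) (fun n => hn2 _ (hρ n)) (fun n => hn3 _ (hρ n))
  refine ⟨x, fun n => ?_, hx 0⟩
  refine hS _ _ ?_ (hρ n)
  have h1 : seg x (ρ n).length = ρ n := hx n
  rw [← h1]
  exact seg_prefix (hlen n)

theorem isTree_kernel (T : Set (List ℕ)) : IsTree (kernelTree T) := by
  rintro σ τ h ⟨S, h1, h2, h3, h4⟩
  exact ⟨S, h1, h2, h3, h2 _ _ h h4⟩

theorem kernel_subset (T : Set (List ℕ)) : kernelTree T ⊆ T := by
  rintro σ ⟨S, h1, -, -, h4⟩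
  exact h1 h4

theorem branching_kernel (T : Set (List ℕ)) : Branching (kernelTree T) := by
  rintro σ ⟨S, h1, h2, h3, h4⟩
  obtain ⟨τ₁, h5, τ₂, h6, h7⟩ := h3 σ h4
  exact ⟨τ₁, ⟨S, h1, h2, h3, h5⟩, τ₂, ⟨S, h1, h2, h3, h6⟩, h7⟩

theorem mem_kernel_of {T : Set (List ℕ)} (hT : IsTree T) {G : Set (List ℕ)} (hG : G ⊆ T)
    (hB : Branching G) {ρ : List ℕ} (h : ρ ∈ G) : ρ ∈ kernelTree T := by
  refine ⟨{σ | ∃ τ ∈ G, σ <+: τ}, ?_, ?_, ?_, ρ, h, List.prefix_rfl⟩
  · rintro σ ⟨τ, h1, h2⟩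
    exact hT _ _ h2 (hG h1)
  · rintro σ τ h1 ⟨τ', h2, h3⟩
    exact ⟨τ', h2, h1.trans h3⟩
  · rintro σ ⟨τ, h1, h2⟩
    obtain ⟨τ₁, h5, τ₂, h6, h7, h8, h9⟩ := hB τ h1
    exact ⟨τ₁, ⟨τ₁, h5, List.prefix_rfl⟩, τ₂, ⟨τ₂, h6, List.prefix_rfl⟩, h2.trans h7,
      h2.trans h8, h9⟩

/-- The `c`-th string. -/
def str (c : ℕ) : List ℕ := Denumerable.ofNat (List ℕ) c

@[simp] theorem encode_str (c : ℕ) : Encodable.encode (str c) = c :=
  Denumerable.encode_ofNat c

@[simp] theorem str_encode (s : List ℕ) : str (Encodable.encode s) = s :=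
  Denumerable.ofNat_encode s

variable {α : Type} [Primcodable α]

@[fun_prop] theorem cstr {f : α → ℕ} (hf : Computable f) : Computable fun a => str (f a) :=
  (Computable.ofNat (List ℕ)).comp hf

variable {D : Set Baire}

theorem UR.seg : UR D fun a (x : ℕ × List ℕ) => seg a x.1 = x.2 := by
  have h1 : UR D fun a (x : ℕ × List ℕ) => x.2.length = x.1 ∧
      ∀ i < x.2.length, ∃ c, x.2[i]? = some c ∧ a i = c := by
    refine UR.and (UR.of_re (RE.eq (by fun_prop) (by fun_prop))) ?_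
    refine UR.all_lt (S := fun a (x : ℕ × List ℕ) i => ∃ c, x.2[i]? = some c ∧ a i = c) ?_
      (f := fun x : ℕ × List ℕ => x.2.length) (by fun_prop)
    refine UR.ex (S := fun a (x : (ℕ × List ℕ) × ℕ) c => x.1.2[x.2]? = some c ∧ a x.2 = c)
      (UR.and (UR.of_re (RE.eq (by fun_prop) (by fun_prop))) ?_)
    exact UR.query (f := fun x : ((ℕ × List ℕ) × ℕ) × ℕ => x.1.2) (by fun_prop) (by fun_prop)
  refine h1.congr fun a _ x => ?_
  obtain ⟨n, s⟩ := x
  constructor
  · rintro ⟨h2, h3⟩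
    dsimp only at h2 h3 ⊢
    subst h2
    refine List.ext_getElem (by simp) fun i h3' h4 => ?_
    obtain ⟨c, hc1, hc2⟩ := h3 i h4
    rw [List.getElem?_eq_getElem h4] at hc1
    cases hc1
    simp [CB.seg, hc2]
  · intro h
    dsimp only at h ⊢
    subst h
    refine ⟨by simp, fun i hi => ?_⟩
    rw [length_seg] at hi
    exact ⟨a i, by simp [CB.seg, hi], rfl⟩

/-- A uniformly co-enumerable closed set has a uniformly computable tree. -/
theorem exists_tree {B : Baire → List ℕ → Prop} (hB : UR D B) : ∃ K : Baire → Baire,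
    ComputableOn D K ∧ (∀ a, TreeName (K a)) ∧
    ∀ a ∈ D, paths (treeOf (K a)) = {x | ∀ m, ¬ B a (seg x m)} := by
  classical
  obtain ⟨R, hR, hBR⟩ := hB
  obtain ⟨q, hq, hRq⟩ := RE.re_iff.1 hR
  let BS : Baire → List ℕ → Prop := fun a σ => ∃ u j n, (u <+: σ ∧ j < σ.length + 1 ∧
    n < σ.length + 1) ∧ q (seg a j, u) n = true
  let K : Baire → Baire := fun a c => if BS a (str c) then 0 else 1
  have hqT : Computable fun x : (List ℕ × List ℕ) × ℕ => q x.1 x.2 := hq
  have hmonoBS : ∀ a σ τ, σ <+: τ → BS a σ → BS a τ := by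
    rintro a σ τ h ⟨u, j, n, ⟨h1, h2, h3⟩, h4⟩
    have := h.length_le
    exact ⟨u, j, n, ⟨h1.trans h, by omega, by omega⟩, h4⟩
  have htree : ∀ a σ, σ ∈ treeOf (K a) ↔ ¬ BS a σ := by
    intro a σ
    show K a (Encodable.encode σ) = 1 ↔ _
    simp only [K, str_encode]
    by_cases h : BS a σ <;> simp [h]
  refine ⟨K, ?_, ?_, ?_⟩
  · rw [computableOn_iff]
    have h1 : UR D fun a (x : ℕ × ℕ) => (x.2 = 0 ∧ ∃ y : (List ℕ × ℕ) × (ℕ × List ℕ),
        (y.1.1 <+: str x.1 ∧ y.1.2 < (str x.1).length + 1 ∧ y.2.1 < (str x.1).length + 1) ∧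
        seg a y.1.2 = y.2.2 ∧ q (y.2.2, y.1.1) y.2.1 = true) ∨
        (x.2 = 1 ∧ ∀ m < (str x.1).length + 1, ∀ j < (str x.1).length + 1,
          ∀ n < (str x.1).length + 1, ∃ y : List ℕ × List ℕ,
            (y.1 <+: str x.1 ∧ y.1.length = m) ∧ seg a j = y.2 ∧ q (y.2, y.1) n = false) := by
      refine UR.or (UR.and (UR.of_re (RE.eq (by fun_prop) (by fun_prop))) ?_)
        (UR.and (UR.of_re (RE.eq (by fun_prop) (by fun_prop))) ?_)
      · refine UR.ex (S := fun a (x : ℕ × ℕ) (y : (List ℕ × ℕ) × (ℕ × List ℕ)) =>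
          (y.1.1 <+: str x.1 ∧ y.1.2 < (str x.1).length + 1 ∧ y.2.1 < (str x.1).length + 1) ∧
          seg a y.1.2 = y.2.2 ∧ q (y.2.2, y.1.1) y.2.1 = true) ?_
        refine UR.and (UR.of_re (RE.and (re_prefix (by fun_prop) (by fun_prop))
          (RE.and (RE.lt (by fun_prop) (by fun_prop)) (RE.lt (by fun_prop) (by fun_prop)))))
          (UR.and ?_ (UR.of_re (RE.eq ?_ (by fun_prop))))
        · exact UR.seg.comp (f := fun x : (ℕ × ℕ) × ((List ℕ × ℕ) × (ℕ × List ℕ)) =>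
            (x.2.1.2, x.2.2.2)) (by fun_prop)
        · exact hqT.comp (f := fun x : (List ℕ × List ℕ) × ℕ => q x.1 x.2)
            (g := fun x : (ℕ × ℕ) × ((List ℕ × ℕ) × (ℕ × List ℕ)) =>
              ((x.2.2.2, x.2.1.1), x.2.2.1)) (by fun_prop)
      · refine UR.all_lt (S := fun a (x : ℕ × ℕ) m => ∀ j < (str x.1).length + 1,
          ∀ n < (str x.1).length + 1, ∃ y : List ℕ × List ℕ,
            (y.1 <+: str x.1 ∧ y.1.length = m) ∧ seg a j = y.2 ∧ q (y.2, y.1) n = false) ?_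
            (f := fun x : ℕ × ℕ => (str x.1).length + 1) (by fun_prop)
        refine UR.all_lt (S := fun a (x : (ℕ × ℕ) × ℕ) j =>
          ∀ n < (str x.1.1).length + 1, ∃ y : List ℕ × List ℕ,
            (y.1 <+: str x.1.1 ∧ y.1.length = x.2) ∧ seg a j = y.2 ∧ q (y.2, y.1) n = false) ?_
            (f := fun x : (ℕ × ℕ) × ℕ => (str x.1.1).length + 1) (by fun_prop)
        refine UR.all_lt (S := fun a (x : ((ℕ × ℕ) × ℕ) × ℕ) n => ∃ y : List ℕ × List ℕ,
            (y.1 <+: str x.1.1.1 ∧ y.1.length = x.1.2) ∧ seg a x.2 = y.2 ∧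
              q (y.2, y.1) n = false) ?_
            (f := fun x : ((ℕ × ℕ) × ℕ) × ℕ => (str x.1.1.1).length + 1) (by fun_prop)
        refine UR.ex (S := fun a (x : (((ℕ × ℕ) × ℕ) × ℕ) × ℕ) (y : List ℕ × List ℕ) =>
            (y.1 <+: str x.1.1.1.1 ∧ y.1.length = x.1.1.2) ∧ seg a x.1.2 = y.2 ∧
              q (y.2, y.1) x.2 = false) ?_
        refine UR.and (UR.of_re (RE.and (re_prefix (by fun_prop) (by fun_prop))
          (RE.eq (by fun_prop) (by fun_prop)))) (UR.and ?_ (UR.of_re (RE.eq ?_ (by fun_prop))))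
        · exact UR.seg.comp (f := fun x : ((((ℕ × ℕ) × ℕ) × ℕ) × ℕ) × (List ℕ × List ℕ) =>
            (x.1.1.2, x.2.2)) (by fun_prop)
        · exact hqT.comp (f := fun x : (List ℕ × List ℕ) × ℕ => q x.1 x.2)
            (g := fun x : ((((ℕ × ℕ) × ℕ) × ℕ) × ℕ) × (List ℕ × List ℕ) =>
              ((x.2.2, x.2.1), x.1.2)) (by fun_prop)
    refine h1.congr fun a _ x => ?_
    obtain ⟨c, k⟩ := x
    dsimp only
    show _ ↔ (if BS a (str c) then 0 else 1) = k
    constructor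
    · rintro (⟨h2, ⟨⟨u, j⟩, ⟨n, s⟩⟩, h3, h4, h5⟩ | ⟨h2, h3⟩)
      · dsimp only at h3 h4 h5
        subst h4
        rw [if_pos ⟨u, j, n, h3, h5⟩, h2]
      · rw [if_neg, h2]
        rintro ⟨u, j, n, ⟨h4, h5, h6⟩, h7⟩
        have := h4.length_le
        obtain ⟨⟨u', s⟩, ⟨h8, h9⟩, h10, h11⟩ := h3 u.length (by omega) j h5 n h6
        dsimp only at h8 h9 h10 h11
        subst h10
        have h12 : u' = u := (List.prefix_of_prefix_length_le h8 h4 h9.le).eq_of_length h9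
        subst h12
        rw [h7] at h11
        exact absurd h11 (by simp)
    · intro h
      by_cases h2 : BS a (str c)
      · rw [if_pos h2] at h
        obtain ⟨u, j, n, h3, h4⟩ := h2
        exact Or.inl ⟨h.symm, ((u, j), (n, seg a j)), h3, rfl, h4⟩
      · rw [if_neg h2] at h
        refine Or.inr ⟨h.symm, fun m hm j hj n hn => ⟨((str c).take m, seg a j),
          ⟨List.take_prefix _ _, ?_⟩, rfl, ?_⟩⟩
        · simp
          omega
        · by_contra h3
          refine h2 ⟨(str c).take m, j, n, ⟨List.take_prefix _ _, hj, hn⟩, ?_⟩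
          simpa using h3
  · intro a
    refine ⟨fun n => ?_, ?_⟩
    · show (if BS a (str n) then 0 else 1) ≤ 1
      split_ifs <;> simp
    · intro σ τ h hτ
      rw [htree] at hτ ⊢
      exact fun hc => hτ (hmonoBS a σ τ h hc)
  · intro a ha
    ext x
    constructor
    · intro hx m hm
      rw [hBR a ha] at hm
      obtain ⟨j, hj⟩ := hm
      obtain ⟨n, hn⟩ := (hRq (seg a j, seg x m)).1 hj
      have h2 := hx (max m (max j n))
      rw [htree] at h2
      refine h2 ⟨seg x m, j, n, ⟨seg_prefix (le_max_left _ _), ?_, ?_⟩, hn⟩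
      · rw [length_seg]
        have : j ≤ max m (max j n) := (le_max_left j n).trans (le_max_right _ _)
        omega
      · rw [length_seg]
        have : n ≤ max m (max j n) := (le_max_right j n).trans (le_max_right _ _)
        omega
    · intro hx m
      rw [htree]
      rintro ⟨u, j, n, ⟨h1, -, -⟩, h4⟩
      have h2 : x ∈ cyl u := (prefix_seg_iff (by simpa using h1.length_le)).1 h1
      have h3 : seg x u.length = u := h2
      refine hx u.length ?_
      rw [hBR a ha, h3]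
      exact ⟨j, (hRq (seg a j, u)).2 ⟨n, h4⟩⟩

end Pool.Agent.X219.PK
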