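import Pool.Agent.X219.PK.Defs
import Pool.Agent.X219.CB.Basic
import Pool.Agent.Helper446.Comp

/-! Relations which are recursively enumerable uniformly in a point of Baire space. -/

set_option autoImplicit false

namespace Pool.Agent.X219.PK

open Pool.Agent.X219.CB Pool.Agent.Helper446

variable {α β : Type} [Primcodable α] [Primcodable β]

/-- Prefixes, with an enumerable description. -/
theorem prefix_iff (s t : List ℕ) : s <+: t ↔ ∀ i < s.length, s[i]? = t[i]? := by
  constructor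
  · rintro ⟨r, rfl⟩ i hi
    rw [List.getElem?_append_left hi]
  · intro h
    rw [List.prefix_iff_getElem?]
    intro i hi
    rw [← h i hi, List.getElem?_eq_getElem hi]

theorem re_prefix {f g : α → List ℕ} (hf : Computable f) (hg : Computable g) :
    REPred fun a => f a <+: g a := by
  have h := RE.all_lt (p := fun a i => (f a)[i]? = (g a)[i]?) (f := fun a => (f a).length)
    (RE.eq (by fun_prop) (by fun_prop)) (by fun_prop)
  exact h.of_eq fun a => (prefix_iff _ _).symm

theorem re_not_prefix {f g : α → List ℕ} (hf : Computable f) (hg : Computable g) :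
    REPred fun a => ¬ f a <+: g a := by
  have h := RE.exN (p := fun a i => i < (f a).length ∧ (f a)[i]? ≠ (g a)[i]?)
    (RE.and (RE.lt (by fun_prop) (by fun_prop)) (RE.ne (by fun_prop) (by fun_prop)))
  refine h.of_eq fun a => ?_
  rw [prefix_iff]
  push Not
  rfl

/-- Uniformly recursively enumerable relations. -/
def UR (D : Set Baire) (S : Baire → α → Prop) : Prop :=
  ∃ R : List ℕ → α → Prop, REPred (fun x : List ℕ × α => R x.1 x.2) ∧
    ∀ p ∈ D, ∀ a, S p a ↔ ∃ m, R (seg p m) a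

variable {D : Set Baire}

theorem UR.congr {S T : Baire → α → Prop} (h : UR D S) (hST : ∀ p ∈ D, ∀ a, S p a ↔ T p a) :
    UR D T := by
  obtain ⟨R, hR, h⟩ := h
  exact ⟨R, hR, fun p hp a => (hST p hp a).symm.trans (h p hp a)⟩

theorem UR.mono {E : Set Baire} {S : Baire → α → Prop} (h : UR E S) (hDE : D ⊆ E) : UR D S := by
  obtain ⟨R, hR, h⟩ := h
  exact ⟨R, hR, fun p hp a => h p (hDE hp) a⟩

/-- A monotone enumeration. -/
theorem UR.monotone {S : Baire → α → Prop} (h : UR D S) :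
    ∃ R : List ℕ → α → Prop, REPred (fun x : List ℕ × α => R x.1 x.2) ∧
      (∀ s t a, s <+: t → R s a → R t a) ∧ ∀ p ∈ D, ∀ a, S p a ↔ ∃ m, R (seg p m) a := by
  obtain ⟨R, hR, h⟩ := h
  refine ⟨fun s a => ∃ u, u <+: s ∧ R u a, ?_, ?_, ?_⟩
  · refine RE.ex (p := fun (x : List ℕ × α) (u : List ℕ) => u <+: x.1 ∧ R u x.2) ?_
    refine RE.and (re_prefix (by fun_prop) (by fun_prop)) ?_
    exact RE.comp hR (f := fun x : (List ℕ × α) × List ℕ => (x.2, x.1.2)) (by fun_prop)
  · rintro s t a hst ⟨u, hu, hR⟩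
    exact ⟨u, hu.trans hst, hR⟩
  · intro p hp a
    rw [h p hp a]
    constructor
    · rintro ⟨m, hm⟩
      exact ⟨m, _, List.prefix_rfl, hm⟩
    · rintro ⟨m, u, hu, hR⟩
      have h1 : p ∈ cyl u := (prefix_seg_iff (by simpa using hu.length_le)).1 hu
      have h2 : seg p u.length = u := h1
      exact ⟨u.length, by rw [h2]; exact hR⟩

theorem UR.of_re {S : α → Prop} (h : REPred S) : UR D fun _ a => S a := by
  refine ⟨fun _ a => S a, RE.comp h (by fun_prop), fun p _ a => ?_⟩
  exact ⟨fun h => ⟨0, h⟩, fun ⟨_, h⟩ => h⟩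

theorem UR.query {f g : α → ℕ} (hf : Computable f) (hg : Computable g) :
    UR D fun p a => p (f a) = g a := by
  refine ⟨fun s a => s[f a]? = some (g a), RE.eq (by fun_prop) (by fun_prop), fun p _ a => ?_⟩
  constructor
  · intro h
    refine ⟨f a + 1, ?_⟩
    simp [seg, h]
  · rintro ⟨m, hm⟩
    simp only [seg, List.getElem?_map] at hm
    by_cases h : f a < m
    · simpa [h] using hm
    · simp [h] at hm

theorem UR.comp {S : Baire → β → Prop} (h : UR D S) {f : α → β} (hf : Computable f) :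
    UR D fun p a => S p (f a) := by
  obtain ⟨R, hR, h⟩ := h
  exact ⟨fun s a => R s (f a), RE.comp hR (f := fun x : List ℕ × α => (x.1, f x.2))
    (by fun_prop), fun p hp a => h p hp (f a)⟩

theorem UR.and {S T : Baire → α → Prop} (hS : UR D S) (hT : UR D T) :
    UR D fun p a => S p a ∧ T p a := by
  obtain ⟨R, hR, hmR, h1⟩ := hS.monotone
  obtain ⟨R', hR', hmR', h2⟩ := hT.monotone
  refine ⟨fun s a => R s a ∧ R' s a, RE.and hR hR', fun p hp a => ?_⟩
  show (S p a ∧ T p a) ↔ ∃ m, (R (seg p m) a ∧ R' (seg p m) a)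
  rw [h1 p hp, h2 p hp]
  constructor
  · rintro ⟨⟨m, hm⟩, ⟨n, hn⟩⟩
    exact ⟨max m n, hmR _ _ _ (seg_prefix (le_max_left _ _)) hm,
      hmR' _ _ _ (seg_prefix (le_max_right _ _)) hn⟩
  · rintro ⟨m, h3, h4⟩
    exact ⟨⟨m, h3⟩, ⟨m, h4⟩⟩

theorem UR.or {S T : Baire → α → Prop} (hS : UR D S) (hT : UR D T) :
    UR D fun p a => S p a ∨ T p a := by
  obtain ⟨R, hR, h1⟩ := hS
  obtain ⟨R', hR', h2⟩ := hT
  refine ⟨fun s a => R s a ∨ R' s a, RE.or hR hR', fun p hp a => ?_⟩
  show (S p a ∨ T p a) ↔ ∃ m, (R (seg p m) a ∨ R' (seg p m) a)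
  rw [h1 p hp, h2 p hp]
  constructor
  · rintro (⟨m, hm⟩ | ⟨m, hm⟩)
    · exact ⟨m, Or.inl hm⟩
    · exact ⟨m, Or.inr hm⟩
  · rintro ⟨m, h3 | h3⟩
    · exact Or.inl ⟨m, h3⟩
    · exact Or.inr ⟨m, h3⟩

theorem UR.ex {S : Baire → α → β → Prop} (hS : UR D fun p (x : α × β) => S p x.1 x.2) :
    UR D fun p a => ∃ b, S p a b := by
  obtain ⟨R, hR, h1⟩ := hS
  refine ⟨fun s a => ∃ b, R s (a, b), ?_, fun p hp a => ?_⟩
  · refine RE.ex (p := fun (y : List ℕ × α) (b : β) => R y.1 (y.2, b)) ?_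
    exact RE.comp hR (f := fun y : (List ℕ × α) × β => (y.1.1, (y.1.2, y.2))) (by fun_prop)
  · constructor
    · rintro ⟨b, hb⟩
      obtain ⟨m, hm⟩ := (h1 p hp (a, b)).1 hb
      exact ⟨m, b, hm⟩
    · rintro ⟨m, b, hm⟩
      exact ⟨b, (h1 p hp (a, b)).2 ⟨m, hm⟩⟩

theorem UR.all_lt {S : Baire → α → ℕ → Prop} (hS : UR D fun p (x : α × ℕ) => S p x.1 x.2)
    {f : α → ℕ} (hf : Computable f) : UR D fun p a => ∀ i < f a, S p a i := by
  obtain ⟨R, hR, hmR, h1⟩ := hS.monotone
  refine ⟨fun s a => ∀ i < f a, R s (a, i), ?_, fun p hp a => ?_⟩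
  · refine RE.all_lt (p := fun (y : List ℕ × α) (i : ℕ) => R y.1 (y.2, i)) ?_ (by fun_prop)
    exact RE.comp hR (f := fun y : (List ℕ × α) × ℕ => (y.1.1, (y.1.2, y.2))) (by fun_prop)
  · constructor
    · intro h
      have h2 : ∀ i, ∃ m, i < f a → R (seg p m) (a, i) := by
        intro i
        by_cases hi : i < f a
        · obtain ⟨m, hm⟩ := (h1 p hp (a, i)).1 (h i hi)
          exact ⟨m, fun _ => hm⟩
        · exact ⟨0, fun h => absurd h hi⟩
      choose m hm using h2
      refine ⟨(Finset.range (f a)).sup m, fun i hi => ?_⟩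
      exact hmR _ _ _ (seg_prefix (Finset.le_sup (f := m) (Finset.mem_range.2 hi))) (hm i hi)
    · rintro ⟨m, hm⟩ i hi
      exact (h1 p hp (a, i)).2 ⟨m, hm i hi⟩

theorem computableOn_iff {F : Baire → Baire} :
    ComputableOn D F ↔ UR D fun p (x : ℕ × ℕ) => F p x.1 = x.2 := by
  constructor
  · rintro ⟨R, hR, h⟩
    exact ⟨R, hR, fun p hp a => h p hp a.1 a.2⟩
  · rintro ⟨R, hR, h⟩
    exact ⟨R, hR, fun p hp n k => h p hp (n, k)⟩

/-- Substitution of a computable map. -/
theorem UR.subst {E : Set Baire} {F : Baire → Baire} (hF : ComputableOn D F)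
    (hDE : ∀ p ∈ D, F p ∈ E) {S : Baire → α → Prop} (hS : UR E S) :
    UR D fun p a => S (F p) a := by
  obtain ⟨R, hR, h⟩ := hS
  rw [computableOn_iff] at hF
  have h1 : UR D fun p (a : α) => ∃ t : List ℕ, (∀ i < t.length, ∃ c, t[i]? = some c ∧
      F p i = c) ∧ R t a := by
    refine UR.ex (S := fun p (a : α) (t : List ℕ) => (∀ i < t.length, ∃ c, t[i]? = some c ∧
      F p i = c) ∧ R t a) (UR.and ?_ (UR.of_re ?_))
    · refine UR.all_lt (S := fun p (x : α × List ℕ) i => ∃ c, x.2[i]? = some c ∧ F p i = c) ?_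
        (f := fun x : α × List ℕ => x.2.length) (by fun_prop)
      refine UR.ex (S := fun p (x : (α × List ℕ) × ℕ) c => x.1.2[x.2]? = some c ∧ F p x.2 = c)
        (UR.and (UR.of_re (RE.eq (by fun_prop) (by fun_prop))) ?_)
      exact hF.comp (f := fun x : ((α × List ℕ) × ℕ) × ℕ => (x.1.2, x.2)) (by fun_prop)
    · exact RE.comp hR (f := fun x : α × List ℕ => (x.2, x.1)) (by fun_prop)
  refine h1.congr fun p hp a => ?_
  rw [h (F p) (hDE p hp)]
  constructor
  · rintro ⟨t, ht, hRt⟩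
    have h2 : seg (F p) t.length = t := by
      refine List.ext_getElem (by simp) fun i h3 h4 => ?_
      obtain ⟨c, hc1, hc2⟩ := ht i h4
      rw [List.getElem?_eq_getElem h4] at hc1
      cases hc1
      simp [seg, hc2]
    exact ⟨t.length, by rw [h2]; exact hRt⟩
  · rintro ⟨m, hm⟩
    refine ⟨seg (F p) m, fun i hi => ?_, hm⟩
    rw [length_seg] at hi
    exact ⟨F p i, by simp [seg, hi], rfl⟩

theorem ComputableOn.comp {E : Set Baire} {F G : Baire → Baire} (hF : ComputableOn D F)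
    (hG : ComputableOn E G) (hDE : ∀ p ∈ D, F p ∈ E) : ComputableOn D fun p => G (F p) := by
  rw [computableOn_iff] at hG ⊢
  exact UR.subst hF hDE hG

theorem ComputableOn.mono {E : Set Baire} {F : Baire → Baire} (hF : ComputableOn E F)
    (hDE : D ⊆ E) : ComputableOn D F := by
  rw [computableOn_iff] at hF ⊢
  exact hF.mono hDE

theorem computable_half : Computable fun n : ℕ => n / 2 :=
  (Primrec.nat_div.comp Primrec.id (Primrec.const 2)).to_comp

theorem computable_mod2 : Computable fun n : ℕ => n % 2 :=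
  (Primrec.nat_mod.comp Primrec.id (Primrec.const 2)).to_comp

theorem ComputableOn.id : ComputableOn D fun p => p := by
  rw [computableOn_iff]
  exact UR.query (by fun_prop) (by fun_prop)

theorem ComputableOn.pair {F G : Baire → Baire} (hF : ComputableOn D F)
    (hG : ComputableOn D G) : ComputableOn D fun p => pair (F p) (G p) := by
  rw [computableOn_iff] at hF hG ⊢
  have hh : Computable fun x : ℕ × ℕ => x.1 / 2 := computable_half.comp Computable.fst
  have hm : Computable fun x : ℕ × ℕ => x.1 % 2 := computable_mod2.comp Computable.fst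
  have h1 : UR D fun p (x : ℕ × ℕ) => (x.1 % 2 = 0 ∧ F p (x.1 / 2) = x.2) ∨
      (x.1 % 2 ≠ 0 ∧ G p (x.1 / 2) = x.2) := by
    refine UR.or (UR.and (UR.of_re (RE.eq hm (by fun_prop))) ?_)
      (UR.and (UR.of_re (RE.ne hm (by fun_prop))) ?_)
    · exact hF.comp (f := fun x : ℕ × ℕ => (x.1 / 2, x.2)) (by fun_prop)
    · exact hG.comp (f := fun x : ℕ × ℕ => (x.1 / 2, x.2)) (by fun_prop)
  refine h1.congr fun p _ x => ?_
  unfold CB.pair
  by_cases h : x.1 % 2 = 0
  · simp [h]
  · simp [h]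

theorem pair_even (p q : Baire) (n : ℕ) : CB.pair p q (2 * n) = p n := by
  simp [CB.pair]

theorem pair_odd (p q : Baire) (n : ℕ) : CB.pair p q (2 * n + 1) = q n := by
  have h1 : (2 * n + 1) % 2 ≠ 0 := by omega
  have h2 : (2 * n + 1) / 2 = n := by omega
  simp only [CB.pair, h1, if_false, h2]

/-- The even part. -/
def ev (x : Baire) : Baire := fun n => x (2 * n)

/-- The odd part. -/
def od (x : Baire) : Baire := fun n => x (2 * n + 1)

@[simp] theorem ev_pair (p q : Baire) : ev (CB.pair p q) = p := funext fun n => pair_even p q n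

@[simp] theorem od_pair (p q : Baire) : od (CB.pair p q) = q := funext fun n => pair_odd p q n

theorem ComputableOn.ev : ComputableOn D ev := by
  rw [computableOn_iff]
  exact UR.query (f := fun x : ℕ × ℕ => 2 * x.1) (by fun_prop) (by fun_prop)

theorem ComputableOn.od : ComputableOn D od := by
  rw [computableOn_iff]
  exact UR.query (f := fun x : ℕ × ℕ => 2 * x.1 + 1) (by fun_prop) (by fun_prop)

end Pool.Agent.X219.PK
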